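import Pool.Agent.Lib_helper15.C10.Final2

/-!
# Local criterion
-/

set_option autoImplicit false

universe u

namespace Pool.Agent.C10

open Filter Set
open scoped Topology

theorem local_of_core2 (hP1 : ModP1) (hcore : ModCore2.{u}) {E : Type u}
    [NormedAddCommGroup E] [NormedSpace ℂ E] [CompleteSpace E]
    [TopologicalSpace.SeparableSpace E] (hrefl : Refl E) (T : E →L[ℂ] E)
    (Φ : C(Circle, ℂ) →L[ℂ] (E →L[ℂ] ℂ))
    (hΦ : ∀ f g : C(Circle, ℂ), (∀ z : Circle, g z = z * f z) → ∀ x, Φ g x = Φ f (T x))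
    (h0 : ∀ f : C(Circle, ℂ), Tendsto (fun n : ℕ => (Φ f).comp (T ^ n)) atTop (𝓝 0))
    (x₀ : E) (hx₀ : Φ 1 x₀ ≠ 0) (C : ℝ)
    (hC : ∀ (p : Polynomial ℂ) (b : ℝ), (∀ z : ℂ, ‖z‖ ≤ 1 → ‖p.eval z‖ ≤ b) →
      ‖Polynomial.aeval T p x₀‖ ≤ C * b) : HasHyper T := by
  have hI : Inter T Φ := fun f x => hΦ f (zc * f) (fun z => rfl) x
  refine hcore hrefl T Φ hI (fun f => ?_) x₀ hx₀ fun c hc hc' => ⟨fun _ => C ^ 2, ?_, ?_⟩
  · refine (h0 f).congr fun n => ?_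
    rw [inter_pow hI]
  · intro l hl
    have h1 := hC (PP c l).1 1 (((hP1 c hc hc' l).2.2 hl).2.2.2)
    rw [mul_one] at h1
    exact pow_le_pow_left₀ (norm_nonneg _) h1 2
  · intro l ε hε
    exact Eventually.of_forall fun n => by linarith

end Pool.Agent.C10
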