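import Pool.Agent.Lib_helper15.C10.Defs2

/-!
# Power bounded operators: the polynomial scheme, definitions and module statements

Paper proof: notes of MP_5ac32f_an, topic C10-PB.
-/

set_option autoImplicit false

universe u

namespace Pool.Agent.C10

open Filter Set
open scoped Topology

/-- degree bound -/
def dP : List ℕ → ℕ
  | [] => 0
  | n :: l => n + 2 * dP l

/-- sparse lists -/
def Lac2 : List ℕ → Prop
  | [] => True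
  | n :: l => dP l ≤ n ∧ Lac2 l

/-- `u (n :: l) = u l * (1 + z^n (1 - |u l|^2) / 2)` -/
noncomputable def uP (c : ℝ) : List ℕ → C(Circle, ℂ)
  | [] => (c : ℂ) • 1
  | n :: l => uP c l * (1 + zc ^ n * ((1 / 2 : ℂ) • (1 - uP c l * star (uP c l))))

/-- `w l = (1 - |u l|^2) / 2` -/
noncomputable def wP (c : ℝ) (l : List ℕ) : C(Circle, ℂ) :=
  (1 / 2 : ℂ) • (1 - uP c l * star (uP c l))

/-- polynomials representing `u l` and `z^(dP l) * conj (u l)` -/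
noncomputable def PP (c : ℝ) : List ℕ → Polynomial ℂ × Polynomial ℂ
  | [] => (Polynomial.C (c : ℂ), Polynomial.C (c : ℂ))
  | n :: l =>
    ((PP c l).1 + Polynomial.X ^ (n - dP l) * (Polynomial.C (1 / 2) *
      (Polynomial.X ^ dP l * (PP c l).1 - (PP c l).1 ^ 2 * (PP c l).2)),
     Polynomial.X ^ (n + dP l) * (PP c l).2 + Polynomial.C (1 / 2) *
      (Polynomial.X ^ dP l * (PP c l).2 - (PP c l).2 ^ 2 * (PP c l).1))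

/-- polynomial representing `z^(dP l) * w l * u l` -/
noncomputable def QQ (c : ℝ) (l : List ℕ) : Polynomial ℂ :=
  Polynomial.C (1 / 2) * (Polynomial.X ^ dP l * (PP c l).1 - (PP c l).1 ^ 2 * (PP c l).2)

/-- `|f|^2` -/
noncomputable def nsq (f : C(Circle, ℂ)) : C(Circle, ℝ) := ⟨fun z => ‖f z‖ ^ 2, by fun_prop⟩

open Classical in
/-- `- log |f|` for nowhere vanishing `f` -/
noncomputable def nlog (f : C(Circle, ℂ)) : C(Circle, ℝ) :=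
  if h : ∀ z, f z ≠ 0 then
    ⟨fun z => - Real.log ‖f z‖, (Continuous.log (by fun_prop)
      fun z => norm_ne_zero_iff.mpr (h z)).neg⟩
  else 0

/-- (P1) the polynomials. -/
def ModP1 : Prop :=
  ∀ c : ℝ, 0 < c → c < 1 → ∀ l : List ℕ,
    (∀ z, 0 < ‖uP c l z‖ ∧ ‖uP c l z‖ < 1) ∧ ‖wP c l‖ ≤ 1 / 2 ∧
    (Lac2 l → Polynomial.aeval zc (PP c l).1 = uP c l ∧
      Polynomial.aeval zc (PP c l).2 = zc ^ dP l * star (uP c l) ∧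
      Polynomial.aeval zc (QQ c l) = zc ^ dP l * (wP c l * uP c l) ∧
      ∀ z : ℂ, ‖z‖ ≤ 1 → ‖(PP c l).1.eval z‖ ≤ 1)

/-- (P2) smallness for inverses. -/
def ModP2 : Prop :=
  ∀ {F : Type u} [NormedAddCommGroup F] [NormedSpace ℂ F] (Φ : C(Circle, ℂ) →L[ℂ] F),
    (∀ f, Tendsto (fun n : ℕ => Φ (zc ^ n * f)) atTop (𝓝 0)) →
    ∀ (a w : C(Circle, ℂ)), ‖w‖ ≤ 1 / 2 →
      (∀ n : ℕ, IsUnit (1 + zc ^ n * w)) ∧
      Tendsto (fun n : ℕ => Φ (a * (Ring.inverse (1 + zc ^ n * w) - 1))) atTop (𝓝 0)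

/-- (P3) one step under a positive functional. -/
def ModP3 : Prop :=
  ∀ L : C(Circle, ℝ) →ₗ[ℝ] ℝ, PosR2 L → ∀ c : ℝ, 0 < c → c < 1 → ∀ l : List ℕ,
    ∀ ε : ℝ, 0 < ε → ∀ᶠ n : ℕ in atTop,
      L (nsq (uP c l)) + (1 / 4) * L (nsq (uP c l) * (1 - nsq (uP c l)) ^ 2) - ε ≤
        L (nsq (uP c (n :: l))) ∧
      L (nlog (uP c (n :: l))) ≤ L (nlog (uP c l)) + ε ∧
      ∀ l' ∈ l.tails, |L (reC (zc ^ n * (wP c l * uP c l * star (uP c l'))))| ≤ ε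

/-- the sesquilinear form of asymptotic behaviour of a power bounded operator -/
def AsForm {H : Type*} [NormedAddCommGroup H] [InnerProductSpace ℂ H] (T : H →L[ℂ] H) (M : ℝ)
    (B : H →L⋆[ℂ] H →L[ℂ] ℂ) : Prop :=
  (∀ x y, B y x = (starRingEnd ℂ) (B x y)) ∧ (∀ x, 0 ≤ (B x x).re) ∧
  (∀ x y, B (T x) (T y) = B x y) ∧
  (∀ (x : H) (ε : ℝ), 0 < ε → ∀ᶠ n : ℕ in atTop, ‖(T ^ n) x‖ ^ 2 ≤ M ^ 2 * (B x x).re + ε) ∧
  ∀ p : Polynomial ℂ, (∀ z : ℂ, ‖z‖ ≤ 1 → ‖p.eval z‖ ≤ 1) → ∀ x,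
    (B (Polynomial.aeval T p x) (Polynomial.aeval T p x)).re ≤ (B x x).re

/-- (H0) transference inequality. -/
def ModH0 : Prop :=
  ∀ {H : Type u} [NormedAddCommGroup H] [InnerProductSpace ℂ H] (p : Polynomial ℂ),
    (∀ z : ℂ, ‖z‖ ≤ 1 → ‖p.eval z‖ ≤ 1) → ∀ (a : ℕ → H) (N : ℕ),
    ∑ j ∈ Finset.range N, ‖∑ k ∈ Finset.range (p.natDegree + 1), p.coeff k • a (j + k)‖ ^ 2 ≤
      ∑ j ∈ Finset.range (N + p.natDegree), ‖a j‖ ^ 2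

/-- (H1) the form exists. -/
def ModH1 : Prop :=
  ∀ {H : Type u} [NormedAddCommGroup H] [InnerProductSpace ℂ H] (T : H →L[ℂ] H) (M : ℝ),
    (∀ n : ℕ, ‖T ^ n‖ ≤ M) → ∃ B : H →L⋆[ℂ] H →L[ℂ] ℂ, AsForm T M B

/-- (H2) intertwining maps from the form. -/
def ModH2 : Prop :=
  ∀ {H : Type u} [NormedAddCommGroup H] [InnerProductSpace ℂ H] (T : H →L[ℂ] H) (M : ℝ)
    (B : H →L⋆[ℂ] H →L[ℂ] ℂ), AsForm T M B → ∀ x₀ : H,
    ∃ Φ : C(Circle, ℂ) →L[ℂ] (H →L[ℂ] ℂ), Inter T Φ ∧ ∀ x, Φ 1 x = B x₀ x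

/-- the potential controlling the orbit of `x₀` -/
noncomputable def pot {H : Type*} [NormedAddCommGroup H] [InnerProductSpace ℂ H] (T : H →L[ℂ] H)
    (M : ℝ) (B : H →L⋆[ℂ] H →L[ℂ] ℂ) (c : ℝ) (x₀ : H) (l : List ℕ) : ℝ :=
  ‖Polynomial.aeval T (PP c l).1 x₀‖ ^ 2 + M ^ 2 * ((B x₀ x₀).re -
    (B (Polynomial.aeval T (PP c l).1 x₀) (Polynomial.aeval T (PP c l).1 x₀)).re)

/-- (H3) the potential nearly decreases. -/
def ModH3 : Prop :=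
  ∀ {H : Type u} [NormedAddCommGroup H] [InnerProductSpace ℂ H] (T : H →L[ℂ] H) (M : ℝ)
    (B : H →L⋆[ℂ] H →L[ℂ] ℂ), AsForm T M B → CoStable T → ∀ (c : ℝ) (x₀ : H) (l : List ℕ)
    (ε : ℝ), 0 < ε → ∀ᶠ n : ℕ in atTop, pot T M B c x₀ (n :: l) ≤ pot T M B c x₀ l + ε

/-- (ADJ) adjoints. -/
def ModADJ : Prop :=
  ∀ {H : Type u} [NormedAddCommGroup H] [InnerProductSpace ℂ H] [CompleteSpace H]
    (T : H →L[ℂ] H),
    (CoStable T ↔ Stable (ContinuousLinearMap.adjoint T)) ∧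
    (Stable T ↔ CoStable (ContinuousLinearMap.adjoint T)) ∧
    (∀ M : ℝ, (∀ n : ℕ, ‖T ^ n‖ ≤ M) → ∀ n : ℕ, ‖ContinuousLinearMap.adjoint T ^ n‖ ≤ M) ∧
    (HasHyper (ContinuousLinearMap.adjoint T) → HasHyper T) ∧
    ((∃ Φ : C(Circle, ℂ) →L[ℂ] (H →L[ℂ] ℂ),
        Inter (ContinuousLinearMap.adjoint T) Φ ∧ Φ 1 ≠ 0) →
      ∃ Ψ : C(Circle, ℂ) →L[ℂ] ((H →L[ℂ] ℂ) →L[ℂ] ℂ), Inter (tr T) Ψ ∧ Ψ 1 ≠ 0)

/-- (Core2) -/
def ModCore2 : Prop :=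
  ∀ {E : Type u} [NormedAddCommGroup E] [NormedSpace ℂ E] [CompleteSpace E]
    [TopologicalSpace.SeparableSpace E], Refl E → ∀ (T : E →L[ℂ] E),
    ∀ Φ : C(Circle, ℂ) →L[ℂ] (E →L[ℂ] ℂ), Inter T Φ →
    (∀ f, Tendsto (fun n : ℕ => Φ (zc ^ n * f)) atTop (𝓝 0)) →
    ∀ x₀ : E, Φ 1 x₀ ≠ 0 →
    (∀ c : ℝ, 0 < c → c < 1 → ∃ b : List ℕ → ℝ,
      (∀ l, Lac2 l → ‖Polynomial.aeval T (PP c l).1 x₀‖ ^ 2 ≤ b l) ∧
      ∀ (l : List ℕ) (ε : ℝ), 0 < ε → ∀ᶠ n : ℕ in atTop, b (n :: l) ≤ b l + ε) →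
    HasHyper T

/-- (Final2) -/
def ModFinal2 : Prop :=
  ∀ {H : Type u} [NormedAddCommGroup H] [InnerProductSpace ℂ H] [CompleteSpace H]
    [TopologicalSpace.SeparableSpace H] (T : H →L[ℂ] H) (M : ℝ), (∀ n : ℕ, ‖T ^ n‖ ≤ M) →
    (∀ c : ℂ, T ≠ c • (1 : H →L[ℂ] H)) → ¬ (Stable T ∧ CoStable T) → HasHyper T

end Pool.Agent.C10
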