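import Mathlib

/-!
# Polynomially bounded operators outside the class `C_00`: definitions and module statements

Paper proof: notes of MP_5ac32f_an, topic C10. `Circle` is the unit circle, `C(Circle, ℂ)` the
Banach algebra of continuous functions.
-/

set_option autoImplicit false

universe u

namespace Pool.Agent.C10

open Filter Set
open scoped Topology

/-- `T` has a nontrivial closed hyperinvariant subspace. -/
def HasHyper {E : Type*} [NormedAddCommGroup E] [NormedSpace ℂ E] (T : E →L[ℂ] E) : Prop :=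
  ∃ M : Submodule ℂ E, IsClosed (M : Set E) ∧ M ≠ ⊥ ∧ M ≠ ⊤ ∧
    ∀ A : E →L[ℂ] E, A * T = T * A → ∀ x ∈ M, A x ∈ M

/-- `‖p(T)‖ ≤ C sup_{|z| ≤ 1} |p(z)|` for all polynomials. -/
def PolyBddBy {E : Type*} [NormedAddCommGroup E] [NormedSpace ℂ E] (C : ℝ) (T : E →L[ℂ] E) :
    Prop :=
  ∀ (p : Polynomial ℂ) (B : ℝ), (∀ z : ℂ, ‖z‖ ≤ 1 → ‖p.eval z‖ ≤ B) →
    ‖Polynomial.aeval T p‖ ≤ C * B

/-- all orbits of `T` tend to zero (class `C_0·`) -/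
def Stable {E : Type*} [NormedAddCommGroup E] [NormedSpace ℂ E] (T : E →L[ℂ] E) : Prop :=
  ∀ x : E, Tendsto (fun n : ℕ => (T ^ n) x) atTop (𝓝 0)

/-- all orbits of the transposed operator tend to zero in norm (class `C_·0`) -/
def CoStable {E : Type*} [NormedAddCommGroup E] [NormedSpace ℂ E] (T : E →L[ℂ] E) : Prop :=
  ∀ φ : E →L[ℂ] ℂ, Tendsto (fun n : ℕ => φ.comp (T ^ n)) atTop (𝓝 0)

/-- the transposed operator `φ ↦ φ ∘ T` -/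
noncomputable def tr {E : Type*} [NormedAddCommGroup E] [NormedSpace ℂ E] (T : E →L[ℂ] E) :
    (E →L[ℂ] ℂ) →L[ℂ] (E →L[ℂ] ℂ) :=
  (ContinuousLinearMap.compL ℂ E E ℂ).flip T

/-- reflexivity -/
def Refl (E : Type*) [NormedAddCommGroup E] [NormedSpace ℂ E] : Prop :=
  Function.Surjective (NormedSpace.inclusionInDoubleDual ℂ E)

/-- the coordinate function -/
noncomputable def zc : C(Circle, ℂ) := ⟨fun z => (z : ℂ), by fun_prop⟩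

/-- `exp ∘ f` -/
noncomputable def ex (f : C(Circle, ℂ)) : C(Circle, ℂ) := ⟨fun z => Complex.exp (f z), by fun_prop⟩

/-- `|f|` -/
noncomputable def absC (f : C(Circle, ℂ)) : C(Circle, ℝ) := ⟨fun z => ‖f z‖, by fun_prop⟩

/-- `√(Re f)` -/
noncomputable def sq (f : C(Circle, ℂ)) : C(Circle, ℝ) := ⟨fun z => √(f z).re, by fun_prop⟩

/-- `Re z^n` -/
noncomputable def cosn (n : ℕ) : C(Circle, ℝ) := ⟨fun z => ((z : ℂ) ^ n).re, by fun_prop⟩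

/-- intertwining relation `Φ (z f) = Φ f ∘ T`. -/
def Inter {E : Type*} [NormedAddCommGroup E] [NormedSpace ℂ E] (T : E →L[ℂ] E)
    (Φ : C(Circle, ℂ) →L[ℂ] (E →L[ℂ] ℂ)) : Prop :=
  ∀ (f : C(Circle, ℂ)) (x : E), Φ (zc * f) x = Φ f (T x)

/-- positive linear functional on real functions for which `L (Re z^n g) → 0`. -/
def PosR (L : C(Circle, ℝ) →ₗ[ℝ] ℝ) : Prop :=
  (∀ f, 0 ≤ f → 0 ≤ L f) ∧ ∀ g, Tendsto (fun n : ℕ => L (cosn n * g)) atTop (𝓝 0)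

/-- Riesz products `h (n :: l) = h l * (1 + Re z^n)` -/
noncomputable def hL : List ℕ → C(Circle, ℂ)
  | [] => 1
  | n :: l => hL l * (1 + (1 / 2 : ℂ) • (zc ^ n + star (zc ^ n)))

/-- analytic functions with real part `hL l` -/
noncomputable def pL : List ℕ → C(Circle, ℂ)
  | [] => 1
  | n :: l => pL l + zc ^ n * hL l

/-- every element is larger than the sum of the elements after it -/
def Lac : List ℕ → Prop
  | [] => True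
  | n :: l => l.sum < n ∧ Lac l

/-! ## Modules -/

/-- (S1) an operator with an orbit not tending to zero has an intertwining map. -/
def ModS1 : Prop :=
  ∀ {E : Type u} [NormedAddCommGroup E] [NormedSpace ℂ E] (T : E →L[ℂ] E) (C : ℝ),
    PolyBddBy C T → ¬ Stable T → ∃ Φ : C(Circle, ℂ) →L[ℂ] (E →L[ℂ] ℂ), Inter T Φ ∧ Φ 1 ≠ 0

/-- (PU) splitting by partitions of unity. -/
def ModPU : Prop :=
  ∀ {F G : Type u} [NormedAddCommGroup F] [NormedSpace ℂ F] [NormedAddCommGroup G]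
    [NormedSpace ℂ G] (Φ : C(Circle, ℂ) →L[ℂ] F) (Ψ : C(Circle, ℂ) →L[ℂ] G),
    Φ 1 ≠ 0 → Ψ 1 ≠ 0 →
    (∃ f f' : C(Circle, ℂ), f * f' = 0 ∧ Φ f' ≠ 0 ∧ Ψ f ≠ 0) ∨
      ∃ lam : ℂ, ∀ f, Φ (zc * f) = lam • Φ f

/-- (TR) transposition. -/
def ModTR : Prop :=
  ∀ {E : Type u} [NormedAddCommGroup E] [NormedSpace ℂ E] [CompleteSpace E],
    (∀ (T : E →L[ℂ] E) (C : ℝ), PolyBddBy C T → PolyBddBy C (tr T)) ∧
    (∀ T : E →L[ℂ] E, (∀ c : ℂ, T ≠ c • (1 : E →L[ℂ] E)) →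
      ∀ c : ℂ, tr T ≠ c • (1 : (E →L[ℂ] ℂ) →L[ℂ] (E →L[ℂ] ℂ))) ∧
    (∀ T : E →L[ℂ] E, CoStable T ↔ Stable (tr T)) ∧
    (Refl E →
      Refl (E →L[ℂ] ℂ) ∧
      (∀ T : E →L[ℂ] E, Stable T ↔ CoStable (tr T)) ∧
      (∀ T : E →L[ℂ] E, HasHyper (tr T) → HasHyper T) ∧
      (TopologicalSpace.SeparableSpace E → TopologicalSpace.SeparableSpace (E →L[ℂ] ℂ)))

/-- (S2) neither stable nor costable. -/
def ModS2 : Prop :=
  ∀ {E : Type u} [NormedAddCommGroup E] [NormedSpace ℂ E] [CompleteSpace E],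
    Refl E → ∀ (T : E →L[ℂ] E) (C : ℝ), PolyBddBy C T → (∀ c : ℂ, T ≠ c • (1 : E →L[ℂ] E)) →
    ¬ Stable T → ¬ CoStable T → HasHyper T

/-- (C1) lacunary polynomials. -/
def ModC1 : Prop :=
  ∀ l : List ℕ, Lac l →
    (∀ z : Circle, (hL l z).im = 0 ∧ 0 ≤ (hL l z).re ∧ (pL l z).re = (hL l z).re) ∧
    ∃ P : Polynomial ℂ, Polynomial.aeval zc P = pL l ∧ ∀ z : ℂ, ‖z‖ ≤ 1 → 0 ≤ (P.eval z).re

/-- (C2) the operators `exp(-s P(T))`. -/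
def ModC2 : Prop :=
  ∀ {E : Type u} [NormedAddCommGroup E] [NormedSpace ℂ E] [CompleteSpace E]
    (T : E →L[ℂ] E) (C : ℝ), PolyBddBy C T →
    ∀ P : Polynomial ℂ, (∀ z : ℂ, ‖z‖ ≤ 1 → 0 ≤ (P.eval z).re) → ∀ s : ℝ, 0 ≤ s →
    ∃ U : E →L[ℂ] E, ‖U‖ ≤ C ∧ (∀ A : E →L[ℂ] E, A * T = T * A → A * U = U * A) ∧
      ∀ Φ : C(Circle, ℂ) →L[ℂ] (E →L[ℂ] ℂ), Inter T Φ → ∀ (f : C(Circle, ℂ)) (x : E),
        Φ f (U x) = Φ (ex (-((s : ℂ) • Polynomial.aeval zc P)) * f) x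

/-- (C3) smallness. -/
def ModC3 : Prop :=
  ∀ {F : Type u} [NormedAddCommGroup F] [NormedSpace ℂ F] (Φ : C(Circle, ℂ) →L[ℂ] F),
    (∀ f, Tendsto (fun n : ℕ => Φ (zc ^ n * f)) atTop (𝓝 0)) →
    ∀ (a h : C(Circle, ℂ)) (s : ℝ),
      Tendsto (fun n : ℕ => Φ (a * (ex ((s : ℂ) • (zc ^ n * h)) - 1))) atTop (𝓝 0)

/-- (C4) decay of the square roots of Riesz products. -/
def ModC4 : Prop :=
  ∀ L : C(Circle, ℝ) →ₗ[ℝ] ℝ, PosR L → ∀ h : C(Circle, ℂ),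
    (∀ z, (h z).im = 0 ∧ 0 ≤ (h z).re) → ∀ ε : ℝ, 0 < ε →
    ∀ᶠ n : ℕ in atTop, L (sq (h * (1 + (1 / 2 : ℂ) • (zc ^ n + star (zc ^ n))))) ≤
      (23 / 24) * L (sq h) + ε

/-- (TV) total variation functional. -/
def ModTV : Prop :=
  ∀ ν : C(Circle, ℂ) →L[ℂ] ℂ, (∀ f, Tendsto (fun n : ℕ => ν (zc ^ n * f)) atTop (𝓝 0)) →
    ∃ L : C(Circle, ℝ) →ₗ[ℝ] ℝ, PosR L ∧ ∀ f, ‖ν f‖ ≤ L (absC f)

/-- (Ctl) control functional. -/
def ModCtl : Prop :=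
  ∀ {E : Type u} [NormedAddCommGroup E] [NormedSpace ℂ E] [TopologicalSpace.SeparableSpace E]
    (Φ : C(Circle, ℂ) →L[ℂ] (E →L[ℂ] ℂ)),
    (∀ f, Tendsto (fun n : ℕ => Φ (zc ^ n * f)) atTop (𝓝 0)) →
    ∃ L : C(Circle, ℝ) →ₗ[ℝ] ℝ, PosR L ∧ ∀ (w : E) (ε : ℝ), 0 < ε →
      ∃ δ : ℝ, 0 < δ ∧ ∀ f : C(Circle, ℂ), ‖f‖ ≤ 2 → L (absC f) ≤ δ → ‖Φ f w‖ ≤ ε

/-- (Core) -/
def ModCore : Prop :=
  ∀ {E : Type u} [NormedAddCommGroup E] [NormedSpace ℂ E] [CompleteSpace E]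
    [TopologicalSpace.SeparableSpace E], Refl E → ∀ (T : E →L[ℂ] E) (C : ℝ), PolyBddBy C T →
    ∀ Φ : C(Circle, ℂ) →L[ℂ] (E →L[ℂ] ℂ), Inter T Φ → Φ 1 ≠ 0 →
    (∀ f, Tendsto (fun n : ℕ => Φ (zc ^ n * f)) atTop (𝓝 0)) → HasHyper T

/-- (VN) von Neumann inequality. -/
def ModVN : Prop :=
  ∀ {H : Type u} [NormedAddCommGroup H] [InnerProductSpace ℂ H] [CompleteSpace H]
    (T : H →L[ℂ] H), ‖T‖ ≤ 1 → PolyBddBy 1 T

/-- (Final) -/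
def ModFinal : Prop :=
  (∀ {E : Type u} [NormedAddCommGroup E] [NormedSpace ℂ E] [CompleteSpace E]
    [TopologicalSpace.SeparableSpace E], Refl E → ∀ (T : E →L[ℂ] E) (C : ℝ), PolyBddBy C T →
    (∀ c : ℂ, T ≠ c • (1 : E →L[ℂ] E)) → ¬ (Stable T ∧ CoStable T) → HasHyper T) ∧
  (∀ {H : Type u} [NormedAddCommGroup H] [InnerProductSpace ℂ H] [CompleteSpace H]
    [TopologicalSpace.SeparableSpace H] (T : H →L[ℂ] H), ‖T‖ ≤ 1 →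
    (∀ c : ℂ, T ≠ c • (1 : H →L[ℂ] H)) → ¬ (Stable T ∧ CoStable T) → HasHyper T)

end Pool.Agent.C10
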