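import Pool.Agent.Lib_helper15.C10.Defs

/-!
# Power bounded operators: definitions and module statements, second part
-/

set_option autoImplicit false

universe u

namespace Pool.Agent.C10

open Filter Set
open scoped Topology

/-- `Re f` -/
noncomputable def reC (f : C(Circle, ℂ)) : C(Circle, ℝ) := ⟨fun z => (f z).re, by fun_prop⟩

/-- positive linear functional on real functions for which `L (Re (z^n g)) → 0`. -/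
def PosR2 (L : C(Circle, ℝ) →ₗ[ℝ] ℝ) : Prop :=
  (∀ f, 0 ≤ f → 0 ≤ L f) ∧
    ∀ g : C(Circle, ℂ), Tendsto (fun n : ℕ => L (reC (zc ^ n * g))) atTop (𝓝 0)

/-- (TV2) total variation functional. -/
def ModTV2 : Prop :=
  ∀ ν : C(Circle, ℂ) →L[ℂ] ℂ, (∀ f, Tendsto (fun n : ℕ => ν (zc ^ n * f)) atTop (𝓝 0)) →
    ∃ L : C(Circle, ℝ) →ₗ[ℝ] ℝ, PosR2 L ∧ ∀ f, ‖ν f‖ ≤ L (absC f)

/-- (Ctl2) control functional. -/
def ModCtl2 : Prop :=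
  ∀ {E : Type u} [NormedAddCommGroup E] [NormedSpace ℂ E] [TopologicalSpace.SeparableSpace E]
    (Φ : C(Circle, ℂ) →L[ℂ] (E →L[ℂ] ℂ)),
    (∀ f, Tendsto (fun n : ℕ => Φ (zc ^ n * f)) atTop (𝓝 0)) →
    ∃ L : C(Circle, ℝ) →ₗ[ℝ] ℝ, PosR2 L ∧ ∀ (w : E) (ε : ℝ), 0 < ε →
      ∃ δ : ℝ, 0 < δ ∧ ∀ f : C(Circle, ℂ), ‖f‖ ≤ 2 → L (absC f) ≤ δ → ‖Φ f w‖ ≤ ε

/-- (S2g) two intertwining maps. -/
def ModS2g : Prop :=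
  ∀ {E : Type u} [NormedAddCommGroup E] [NormedSpace ℂ E] [CompleteSpace E],
    Refl E → ∀ (T : E →L[ℂ] E), (∀ c : ℂ, T ≠ c • (1 : E →L[ℂ] E)) →
    ∀ Φ : C(Circle, ℂ) →L[ℂ] (E →L[ℂ] ℂ), Inter T Φ → Φ 1 ≠ 0 →
    ∀ Ψ : C(Circle, ℂ) →L[ℂ] ((E →L[ℂ] ℂ) →L[ℂ] ℂ), Inter (tr T) Ψ → Ψ 1 ≠ 0 → HasHyper T

theorem PosR2.posR {L : C(Circle, ℝ) →ₗ[ℝ] ℝ} (h : PosR2 L) : PosR L := by
  refine ⟨h.1, fun g => ?_⟩
  refine (h.2 ⟨fun z => ((g z : ℝ) : ℂ), by fun_prop⟩).congr fun n => ?_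
  congr 1
  ext z
  simp [reC, cosn, zc]

end Pool.Agent.C10
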