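import Pool.Agent.Lib_helper15.C10.Core2
import Pool.Agent.Lib_helper15.C10.Local
import Pool.Agent.Lib_helper52.C10.ADJ
import Pool.Agent.Lib_helper65.C10.P2
import Pool.Agent.Lib_helper65.C10.H3
import Pool.Agent.Lib_helper68.C10.P1
import Pool.Agent.Lib_helper68.C10.P3
import Pool.Agent.Lib_helper69.C10.S2
import Pool.Agent.Lib_helper84.C10.H1
import Pool.Agent.Lib_helper84.C10.TV2
import Pool.Agent.Lib_helper93.C10.Ctl2
import Pool.Agent.Lib_helper95.C10.H0
import Pool.Agent.Lib_helper95.C10.H2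
import Pool.Agent.Lib_helper95.C10.PU
import Pool.Agent.Lib_helper95.C10.TR

/-!
# Operators outside `C_00`: all modules together
-/

set_option autoImplicit false

universe u

namespace Pool.Agent.C10

open Filter Set
open scoped Topology

theorem core2_all : ModCore2.{u} := modCore2 modP1 modP2 (modP3 modP1) (modCtl2 modTV2)

theorem core_all : ModCore.{u} := modCore_of_core2 modP1 core2_all

theorem final_powerBounded {H : Type u} [NormedAddCommGroup H] [InnerProductSpace ℂ H]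
    [CompleteSpace H] [TopologicalSpace.SeparableSpace H] (T : H →L[ℂ] H) (M : ℝ)
    (hM : ∀ n : ℕ, ‖T ^ n‖ ≤ M) (hne : ∀ c : ℂ, T ≠ c • ContinuousLinearMap.id ℂ H)
    (h00 : ¬ (Stable T ∧ CoStable T)) : HasHyper T :=
  modFinal2 modP1 (modH1 modH0) modH2 modH3 modADJ core2_all (modS2g modPU) T M hM hne h00

theorem final_polyBounded {E : Type u} [NormedAddCommGroup E] [NormedSpace ℂ E]
    [CompleteSpace E] [TopologicalSpace.SeparableSpace E] (hrefl : Refl E) (T : E →L[ℂ] E)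
    (C : ℝ) (hC : PolyBddBy C T) (hne : ∀ c : ℂ, T ≠ c • ContinuousLinearMap.id ℂ E)
    (h00 : ¬ (Stable T ∧ CoStable T)) : HasHyper T :=
  modFinalBanach modS1 (modS2 modS1 modPU modTR) modTR core_all hrefl T C hC hne h00

theorem final_local {E : Type u} [NormedAddCommGroup E] [NormedSpace ℂ E] [CompleteSpace E]
    [TopologicalSpace.SeparableSpace E] (hrefl : Refl E) (T : E →L[ℂ] E)
    (Φ : C(Circle, ℂ) →L[ℂ] (E →L[ℂ] ℂ))
    (hΦ : ∀ f g : C(Circle, ℂ), (∀ z : Circle, g z = z * f z) → ∀ x, Φ g x = Φ f (T x))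
    (h0 : ∀ f : C(Circle, ℂ), Tendsto (fun n : ℕ => (Φ f).comp (T ^ n)) atTop (𝓝 0))
    (x₀ : E) (hx₀ : Φ 1 x₀ ≠ 0) (C : ℝ)
    (hC : ∀ (p : Polynomial ℂ) (b : ℝ), (∀ z : ℂ, ‖z‖ ≤ 1 → ‖p.eval z‖ ≤ b) →
      ‖Polynomial.aeval T p x₀‖ ≤ C * b) : HasHyper T :=
  local_of_core2 modP1 core2_all hrefl T Φ hΦ h0 x₀ hx₀ C hC

end Pool.Agent.C10
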