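import Pool.Agent.Lib_helper15.C10.Fun
import Pool.Agent.Lib_helper15.Basic

/-!
# The core construction
-/

set_option autoImplicit false

universe u

namespace Pool.Agent.C10

open Filter Set
open scoped Topology

namespace Core

/-- the chosen sequence of lists -/
structure Sel {F : Type*} [NormedAddCommGroup F] [NormedSpace ℂ F] (Φ : C(Circle, ℂ) →L[ℂ] F)
    (L : C(Circle, ℝ) →ₗ[ℝ] ℝ) (s : ℝ) (q : ℕ → List ℕ) (n : ℕ → ℕ) : Prop where
  zero : q 0 = []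
  succ : ∀ J, q (J + 1) = n J :: q J
  lac : ∀ J, Lac (q J)
  small : ∀ K J, K ≤ J → ‖Φ (ex ((s : ℂ) • (pL (q J) - pL (q K))) *
    (ex ((s : ℂ) • (zc ^ n J * hL (q J))) - 1))‖ ≤ (1 / 2) ^ J
  small0 : ∀ J, ‖Φ (ex ((s : ℂ) • pL (q J)) *
    (ex ((s : ℂ) • (zc ^ n J * hL (q J))) - 1))‖ ≤ (1 / 2) ^ J
  dec : ∀ J, L (sq (hL (q (J + 1)))) ≤ 23 / 24 * L (sq (hL (q J))) + (1 / 2) ^ J

theorem exists_sel (hC1 : ModC1) (hC3 : ModC3.{u}) (hC4 : ModC4) {F : Type u}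
    [NormedAddCommGroup F] [NormedSpace ℂ F] (Φ : C(Circle, ℂ) →L[ℂ] F)
    (hΦ : ∀ f, Tendsto (fun n : ℕ => Φ (zc ^ n * f)) atTop (𝓝 0))
    (L : C(Circle, ℝ) →ₗ[ℝ] ℝ) (hL' : PosR L) (s : ℝ) :
    ∃ (q : ℕ → List ℕ) (n : ℕ → ℕ), Sel Φ L s q n := by
  have pick : ∀ (J : ℕ) (l : {l : List ℕ // Lac l}), ∃ n : ℕ, l.1.sum < n ∧
      (∀ l' ∈ l.1.tails, ‖Φ (ex ((s : ℂ) • (pL l.1 - pL l')) *
        (ex ((s : ℂ) • (zc ^ n * hL l.1)) - 1))‖ ≤ (1 / 2) ^ J) ∧
      (‖Φ (ex ((s : ℂ) • pL l.1) * (ex ((s : ℂ) • (zc ^ n * hL l.1)) - 1))‖ ≤ (1 / 2) ^ J) ∧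
      L (sq (hL (n :: l.1))) ≤ 23 / 24 * L (sq (hL l.1)) + (1 / 2) ^ J := by
    intro J l
    have hpos : (0 : ℝ) < (1 / 2) ^ J := by positivity
    have hsm : ∀ a : C(Circle, ℂ), ∀ᶠ n : ℕ in atTop,
        ‖Φ (a * (ex ((s : ℂ) • (zc ^ n * hL l.1)) - 1))‖ ≤ (1 / 2) ^ J := by
      intro a
      have h1 := (hC3 Φ hΦ a (hL l.1) s).norm
      rw [norm_zero] at h1
      exact (h1.eventually (gt_mem_nhds hpos)).mono fun n hn => hn.le
    have e1 : ∀ᶠ n : ℕ in atTop, l.1.sum < n := eventually_gt_atTop _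
    have e2 : ∀ᶠ n : ℕ in atTop, ∀ l' ∈ l.1.tails, ‖Φ (ex ((s : ℂ) • (pL l.1 - pL l')) *
        (ex ((s : ℂ) • (zc ^ n * hL l.1)) - 1))‖ ≤ (1 / 2) ^ J := by
      have : ∀ᶠ n : ℕ in atTop, ∀ l' ∈ l.1.tails.toFinset,
          ‖Φ (ex ((s : ℂ) • (pL l.1 - pL l')) *
            (ex ((s : ℂ) • (zc ^ n * hL l.1)) - 1))‖ ≤ (1 / 2) ^ J := by
        rw [Filter.eventually_all_finset]
        intro l' _
        exact hsm _
      filter_upwards [this] with n hn l' hl'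
      exact hn l' (List.mem_toFinset.mpr hl')
    have e3 := hC4 L hL' (hL l.1) (fun z => ⟨((hC1 l.1 l.2).1 z).1, ((hC1 l.1 l.2).1 z).2.1⟩)
      ((1 / 2) ^ J) hpos
    obtain ⟨n, h1, h2, h3, h4⟩ := (e1.and (e2.and ((hsm _).and e3))).exists
    exact ⟨n, h1, h2, h3, h4⟩
  choose nx hnx using pick
  let seq : ℕ → {l : List ℕ // Lac l} := fun J =>
    Nat.rec ⟨[], trivial⟩ (fun J l => ⟨nx J l :: l.1, ⟨(hnx J l).1, l.2⟩⟩) J
  have hsucc : ∀ J, (seq (J + 1)).1 = nx J (seq J) :: (seq J).1 := fun _ => rfl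
  have hsuf : ∀ K J, K ≤ J → (seq K).1 <:+ (seq J).1 := by
    intro K J hKJ
    induction J, hKJ using Nat.le_induction with
    | base => exact List.suffix_refl _
    | succ J hJ ih =>
      rw [hsucc]
      exact ih.trans (List.suffix_cons _ _)
  refine ⟨fun J => (seq J).1, fun J => nx J (seq J), rfl, hsucc, fun J => (seq J).2, ?_, ?_, ?_⟩
  · intro K J hKJ
    exact (hnx J (seq J)).2.1 _ ((List.mem_tails _ _).mpr (hsuf K J hKJ))
  · intro J
    exact (hnx J (seq J)).2.2.1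
  · intro J
    exact (hnx J (seq J)).2.2.2

section

variable {F : Type*} [NormedAddCommGroup F] [NormedSpace ℂ F] {Φ : C(Circle, ℂ) →L[ℂ] F}
    {L : C(Circle, ℝ) →ₗ[ℝ] ℝ} {s : ℝ} {q : ℕ → List ℕ} {n : ℕ → ℕ}

theorem Sel.pL_succ (h : Sel Φ L s q n) (J : ℕ) :
    pL (q (J + 1)) = pL (q J) + zc ^ n J * hL (q J) := by
  rw [h.succ]
  rfl

theorem Sel.dist_le (h : Sel Φ L s q n) (K J : ℕ) (hKJ : K ≤ J) :
    ‖Φ (ex ((s : ℂ) • (pL (q (J + 1)) - pL (q K)))) -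
      Φ (ex ((s : ℂ) • (pL (q J) - pL (q K))))‖ ≤ (1 / 2) ^ J := by
  have h1 := h.small K J hKJ
  have h2 : ex ((s : ℂ) • (pL (q (J + 1)) - pL (q K))) = ex ((s : ℂ) • (pL (q J) - pL (q K))) *
      ex ((s : ℂ) • (zc ^ n J * hL (q J))) := by
    rw [← ex_add, h.pL_succ, ← smul_add]
    congr 2
    ring
  rw [h2, ← map_sub]
  rw [mul_sub, mul_one] at h1
  exact h1

theorem Sel.dist0_le (h : Sel Φ L s q n) (J : ℕ) :
    ‖Φ (ex ((s : ℂ) • pL (q (J + 1)))) - Φ (ex ((s : ℂ) • pL (q J)))‖ ≤ (1 / 2) ^ J := by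
  have h1 := h.small0 J
  have h2 : ex ((s : ℂ) • pL (q (J + 1))) = ex ((s : ℂ) • pL (q J)) *
      ex ((s : ℂ) • (zc ^ n J * hL (q J))) := by
    rw [← ex_add, h.pL_succ, ← smul_add]
  rw [h2, ← map_sub]
  rw [mul_sub, mul_one] at h1
  exact h1

/-- positivity -/
theorem posR_mono (hL : PosR L) {f g : C(Circle, ℝ)} (hfg : f ≤ g) : L f ≤ L g := by
  have := hL.1 (g - f) (sub_nonneg.mpr hfg)
  rw [map_sub] at this
  linarith

theorem sq_nonneg (f : C(Circle, ℂ)) : 0 ≤ sq f := by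
  rw [ContinuousMap.le_def]
  intro z
  exact Real.sqrt_nonneg _

theorem Sel.summable (h : Sel Φ L s q n) (hp : PosR L) :
    Summable fun J => L (sq (hL (q J))) := by
  have hnn : ∀ J, 0 ≤ L (sq (hL (q J))) := fun J => hp.1 _ (sq_nonneg _)
  have hgeo : ∀ N : ℕ, ∑ i ∈ Finset.range N, ((1 : ℝ) / 2) ^ i ≤ 2 := by
    intro N
    have := summable_geometric_two.sum_le_tsum (Finset.range N) (fun i _ => by positivity)
    rw [tsum_geometric_two] at this
    exact this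
  have hb : ∀ N : ℕ, ∑ i ∈ Finset.range N, L (sq (hL (q i))) ≤
      24 * (L (sq (hL (q 0))) + 2) := by
    intro N
    induction N with
    | zero =>
      simp only [Finset.range_zero, Finset.sum_empty]
      have := hnn 0
      linarith
    | succ N ih =>
      rw [Finset.sum_range_succ']
      have h1 : ∑ i ∈ Finset.range N, L (sq (hL (q (i + 1)))) ≤
          23 / 24 * ∑ i ∈ Finset.range N, L (sq (hL (q i))) +
            ∑ i ∈ Finset.range N, ((1 : ℝ) / 2) ^ i := by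
        rw [Finset.mul_sum, ← Finset.sum_add_distrib]
        exact Finset.sum_le_sum fun i _ => h.dec i
      have h2 := hgeo N
      linarith
  exact summable_of_sum_range_le hnn hb

/-- the key estimate for the absolutely continuous part -/
theorem Sel.control (hC1 : ModC1) (hs : 0 ≤ s) (h : Sel Φ L s q n) (hp : PosR L) {δ : ℝ}
    (hδ : 0 < δ) : ∃ K₀ : ℕ, ∀ K, K₀ ≤ K → ∀ J, K ≤ J →
      L (absC (uu s (q K) * star (uu s (q J)) - 1)) ≤ δ := by
  have hnn : ∀ J, 0 ≤ L (sq (hL (q J))) := fun J => hp.1 _ (sq_nonneg _)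
  have hsum := h.summable hp
  have htail := (tendsto_sum_nat_add (fun J => L (sq (hL (q J))))).const_mul (√(2 * s))
  rw [mul_zero] at htail
  obtain ⟨K₀, hK₀⟩ := eventually_atTop.mp (htail.eventually (gt_mem_nhds hδ))
  refine ⟨K₀, fun K hK J hJ => ?_⟩
  refine (posR_mono hp (abs_uu_mul_star_sub_one hC1 hs q n h.succ h.lac K J hJ)).trans ?_
  rw [map_smul, map_sum, smul_eq_mul]
  refine le_trans ?_ (hK₀ K hK).le
  gcongr
  have hsum' : Summable fun i => L (sq (hL (q (i + K)))) := (summable_nat_add_iff K).mpr hsum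
  have h1 : ∑ i ∈ Finset.Ico K (J + 1), L (sq (hL (q i))) =
      ∑ i ∈ Finset.range (J + 1 - K), L (sq (hL (q (i + K)))) := by
    rw [Finset.sum_Ico_eq_sum_range]
    exact Finset.sum_congr rfl fun i _ => by rw [add_comm]
  rw [h1]
  exact hsum'.sum_le_tsum _ (fun i _ => hnn _)

end

end Core

theorem modCore (hC1 : ModC1) (hC2 : ModC2.{u}) (hC3 : ModC3.{u}) (hC4 : ModC4)
    (hCtl : ModCtl.{u}) : ModCore.{u} := by
  intro E _ _ _ _ hrefl T C hT Φ hΦT hΦ1 hΦ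
  obtain ⟨L, hp, hAC⟩ := hCtl Φ hΦ
  -- choice of `s`
  obtain ⟨s, hs, hsΦ⟩ : ∃ s : ℝ, 0 ≤ s ∧ ‖Φ‖ + 2 < Real.exp s * ‖Φ 1‖ := by
    have hpos : 0 < ‖Φ 1‖ := norm_pos_iff.mpr hΦ1
    have h1 : Tendsto (fun s : ℝ => Real.exp s * ‖Φ 1‖) atTop atTop :=
      Real.tendsto_exp_atTop.atTop_mul_const hpos
    obtain ⟨s, h2, h3⟩ := ((h1.eventually_gt_atTop (‖Φ‖ + 2)).and (eventually_ge_atTop 0)).exists
    exact ⟨s, h3, h2⟩
  obtain ⟨q, n, hS⟩ := Core.exists_sel hC1 hC3 hC4 Φ hΦ L hp s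
  -- the operators
  have hU : ∀ K : ℕ, ∃ U : E →L[ℂ] E, ‖U‖ ≤ C ∧
      (∀ A : E →L[ℂ] E, A * T = T * A → A * U = U * A) ∧
      ∀ (f : C(Circle, ℂ)) (x : E), Φ f (U x) = Φ (Core.uu s (q K) * f) x := by
    intro K
    obtain ⟨P, hP1, hP2⟩ := (hC1 (q K) (hS.lac K)).2
    obtain ⟨U, h1, h2, h3⟩ := hC2 T C hT P hP2 s hs
    refine ⟨U, h1, h2, fun f x => ?_⟩
    rw [h3 Φ hΦT f x, hP1]
    rfl
  choose U hU1 hU2 hU3 using hU
  -- the functional `y1`
  have hcau : CauchySeq fun J => Φ (ex ((s : ℂ) • pL (q J))) := by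
    refine cauchySeq_of_le_geometric (1 / 2) 1 (by norm_num) fun J => ?_
    rw [dist_comm, dist_eq_norm, one_mul]
    exact hS.dist0_le J
  obtain ⟨y1, hy1⟩ := cauchySeq_tendsto_of_complete hcau
  have hy1norm : Real.exp s * ‖Φ 1‖ ≤ ‖y1‖ + 2 := by
    have h1 : dist (Φ (ex ((s : ℂ) • pL (q 0)))) y1 ≤ 1 / (1 - 1 / 2) := by
      refine dist_le_of_le_geometric_of_tendsto₀ (1 / 2) 1 (by norm_num) (fun J => ?_) hy1
      rw [dist_comm, dist_eq_norm, one_mul]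
      exact hS.dist0_le J
    have h2 : ex ((s : ℂ) • pL (q 0)) = Complex.exp s • (1 : C(Circle, ℂ)) := by
      rw [hS.zero]
      ext z
      simp [pL]
    rw [h2, map_smul, dist_eq_norm] at h1
    have h3 : ‖Complex.exp s • Φ 1‖ = Real.exp s * ‖Φ 1‖ := by
      rw [norm_smul, Complex.norm_exp, Complex.ofReal_re]
    have h4 := norm_sub_norm_le (Complex.exp s • Φ 1) y1
    rw [h3] at h4
    norm_num at h1
    linarith
  have hy1U : ∀ (K : ℕ) (w : E), ‖y1 (U K w) - Φ 1 w‖ ≤ 2 * (1 / 2) ^ K * ‖w‖ := by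
    intro K w
    have hlim : Tendsto (fun J => Φ (ex ((s : ℂ) • (pL (q (K + J)) - pL (q K)))) w) atTop
        (𝓝 (y1 (U K w))) := by
      have h1 : Tendsto (fun J => Φ (ex ((s : ℂ) • pL (q (K + J)))) (U K w)) atTop
          (𝓝 (y1 (U K w))) := by
        have h2 : Tendsto (fun J => Φ (ex ((s : ℂ) • pL (q (K + J))))) atTop (𝓝 y1) :=
          hy1.comp (tendsto_add_atTop_nat K |>.congr fun J => add_comm _ _)
        exact ((ContinuousLinearMap.apply ℂ ℂ (U K w)).continuous.tendsto y1).comp h2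
      refine h1.congr fun J => ?_
      rw [hU3]
      congr 2
      rw [Core.uu, ← ex_add]
      congr 1
      rw [smul_sub]
      ring
    have h3 : dist (Φ (ex ((s : ℂ) • (pL (q (K + 0)) - pL (q K)))) w) (y1 (U K w)) ≤
        ((1 / 2) ^ K * ‖w‖) / (1 - 1 / 2) := by
      refine dist_le_of_le_geometric_of_tendsto₀ (1 / 2) ((1 / 2) ^ K * ‖w‖) (by norm_num)
        (fun J => ?_) hlim
      rw [dist_comm, dist_eq_norm, ← sub_apply]
      refine (ContinuousLinearMap.le_opNorm _ _).trans ?_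
      have := hS.dist_le K (K + J) (Nat.le_add_right _ _)
      calc _ ≤ (1 / 2 : ℝ) ^ (K + J) * ‖w‖ := by gcongr; exact this
        _ = _ := by rw [pow_add]; ring
    have h4 : ex ((s : ℂ) • (pL (q (K + 0)) - pL (q K))) = 1 := by
      rw [add_zero, sub_self, smul_zero, ex_zero]
    rw [h4, dist_comm, dist_eq_norm] at h3
    refine h3.trans (le_of_eq ?_)
    ring
  -- the functional `y2`
  have hΦn : ∀ J, ‖Φ (star (Core.uu s (q J)))‖ ≤ ‖Φ‖ := by
    intro J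
    refine (Φ.le_opNorm _).trans ?_
    have h1 : ‖star (Core.uu s (q J))‖ ≤ 1 := by
      rw [norm_star, ContinuousMap.norm_le _ zero_le_one]
      exact fun z => Core.norm_uu_le hC1 hs (q J) (hS.lac J) z
    calc ‖Φ‖ * ‖star (Core.uu s (q J))‖ ≤ ‖Φ‖ * 1 := by gcongr
      _ = ‖Φ‖ := mul_one _
  let UF : Ultrafilter ℕ := Filter.hyperfilter ℕ
  have hUF : (UF : Filter ℕ) ≤ atTop := Nat.hyperfilter_le_atTop
  obtain ⟨y2, hy2n, hy2⟩ : ∃ y2 : E →L[ℂ] ℂ, ‖y2‖ ≤ ‖Φ‖ ∧ ∀ w : E,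
      Tendsto (fun J => Φ (star (Core.uu s (q J))) w) UF (𝓝 (y2 w)) := by
    have hcomp := WeakDual.isCompact_closedBall (0 : E →L[ℂ] ℂ) ‖Φ‖
    let v : ℕ → WeakDual ℂ E := fun J => StrongDual.toWeakDual (Φ (star (Core.uu s (q J))))
    have hle : ((UF.map v : Ultrafilter (WeakDual ℂ E)) : Filter (WeakDual ℂ E)) ≤
        𝓟 (WeakDual.toStrongDual ⁻¹' Metric.closedBall (0 : E →L[ℂ] ℂ) ‖Φ‖) := by
      rw [le_principal_iff]
      refine Filter.mem_map.mpr (Filter.mem_of_superset Filter.univ_mem fun J _ => ?_)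
      simp only [mem_preimage, mem_closedBall_zero_iff]
      exact hΦn J
    obtain ⟨y, hy, hlim⟩ := hcomp.ultrafilter_le_nhds _ hle
    refine ⟨WeakDual.toStrongDual y, by simpa using hy, fun w => ?_⟩
    have hc : Continuous fun φ : WeakDual ℂ E => φ w := WeakDual.eval_continuous w
    exact (hc.tendsto y).comp hlim
  have hy2U : ∀ (w : E) (ε : ℝ), 0 < ε → ∃ K₀ : ℕ, ∀ K, K₀ ≤ K →
      ‖y2 (U K w) - Φ 1 w‖ ≤ ε := by
    intro w ε hε
    obtain ⟨δ, hδ, hδ'⟩ := hAC w ε hε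
    obtain ⟨K₀, hK₀⟩ := hS.control hC1 hs hp hδ
    refine ⟨K₀, fun K hK => ?_⟩
    have hlim : Tendsto (fun J => ‖Φ (star (Core.uu s (q J))) (U K w) - Φ 1 w‖) UF
        (𝓝 ‖y2 (U K w) - Φ 1 w‖) := ((hy2 (U K w)).sub_const _).norm
    refine le_of_tendsto hlim ?_
    have hev : ∀ᶠ J in atTop, ‖Φ (star (Core.uu s (q J))) (U K w) - Φ 1 w‖ ≤ ε := by
      filter_upwards [eventually_ge_atTop K] with J hJ
      rw [hU3, ← sub_apply, ← map_sub]
      exact hδ' _ (Core.norm_uu_mul_star_sub_one_le hC1 hs _ _ (hS.lac K) (hS.lac J))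
        (hK₀ K hK J hJ)
    exact hUF hev
  -- their difference
  have hne : y1 - y2 ≠ 0 := by
    intro h0
    have h1 : y1 = y2 := sub_eq_zero.mp h0
    rw [h1] at hy1norm
    linarith
  have hyU : ∀ w : E, Tendsto (fun K => (y1 - y2) (U K w)) atTop (𝓝 0) := by
    intro w
    have h1 : Tendsto (fun K => y1 (U K w) - Φ 1 w) atTop (𝓝 0) := by
      rw [tendsto_zero_iff_norm_tendsto_zero]
      have h2 : Tendsto (fun K : ℕ => 2 * (1 / 2 : ℝ) ^ K * ‖w‖) atTop (𝓝 (2 * 0 * ‖w‖)) :=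
        ((tendsto_pow_atTop_nhds_zero_of_lt_one (by norm_num) (by norm_num)).const_mul 2).mul_const
          _
      rw [mul_zero, zero_mul] at h2
      exact squeeze_zero (fun _ => norm_nonneg _) (fun K => hy1U K w) h2
    have h2 : Tendsto (fun K => y2 (U K w) - Φ 1 w) atTop (𝓝 0) := by
      rw [Metric.tendsto_atTop]
      intro ε hε
      obtain ⟨K₀, hK₀⟩ := hy2U w (ε / 2) (half_pos hε)
      refine ⟨K₀, fun K hK => ?_⟩
      rw [dist_zero_right]
      linarith [hK₀ K hK]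
    have h3 := h1.sub h2
    rw [sub_zero] at h3
    refine h3.congr fun K => ?_
    rw [sub_apply]
    ring
  -- the limit operator
  obtain ⟨B, hB1, hB2⟩ := Pool.Agent.Lib_helper15.exists_weak_ulim_operator hrefl UF U C hU1
  obtain ⟨x0, hx0⟩ : ∃ x0 : E, Φ 1 x0 ≠ 0 := by
    by_contra hcon
    push Not at hcon
    exact hΦ1 (ContinuousLinearMap.ext hcon)
  have hBx0 : B x0 ≠ 0 := by
    intro h0
    have h1 := hB2 x0 y2
    have h2 : Tendsto (fun K => y2 (U K x0)) UF (𝓝 (Φ 1 x0)) := by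
      have h3 : Tendsto (fun K => y2 (U K x0)) atTop (𝓝 (Φ 1 x0)) := by
        rw [Metric.tendsto_atTop]
        intro ε hε
        obtain ⟨K₀, hK₀⟩ := hy2U x0 (ε / 2) (half_pos hε)
        refine ⟨K₀, fun K hK => ?_⟩
        rw [dist_eq_norm]
        linarith [hK₀ K hK]
      exact h3.mono_left hUF
    have h3 := tendsto_nhds_unique h1 h2
    rw [h0, map_zero] at h3
    exact hx0 h3.symm
  have hker : ∀ A : E →L[ℂ] E, A * T = T * A → (y1 - y2) (A (B x0)) = 0 := by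
    intro A hA
    have h1 := hB2 x0 ((y1 - y2).comp A)
    have h2 : Tendsto (fun K => ((y1 - y2).comp A) (U K x0)) UF (𝓝 0) := by
      have h3 : Tendsto (fun K => ((y1 - y2).comp A) (U K x0)) atTop (𝓝 0) := by
        refine (hyU (A x0)).congr fun K => ?_
        have h4 := congrArg (fun S : E →L[ℂ] E => S x0) (hU2 K A hA)
        simp only [mul_apply_eq_comp] at h4
        rw [ContinuousLinearMap.comp_apply, h4]
      exact h3.mono_left hUF
    exact tendsto_nhds_unique h1 h2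
  -- the subspace
  let N : Submodule ℂ E := Submodule.map
    (((ContinuousLinearMap.apply ℂ E (B x0)) : (E →L[ℂ] E) →ₗ[ℂ] E))
    (Pool.Agent.Lib_helper15.commutantSubmodule T)
  have hNmem : ∀ A : E →L[ℂ] E, A * T = T * A → A (B x0) ∈ N := fun A hA =>
    ⟨A, hA, rfl⟩
  have hNinv : ∀ A : E →L[ℂ] E, A * T = T * A → ∀ x ∈ N, A x ∈ N := by
    rintro A hA x ⟨A', hA', rfl⟩
    refine ⟨A * A', ?_, rfl⟩
    show A * A' * T = T * (A * A')
    have h1 : A' * T = T * A' := hA'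
    rw [mul_assoc, h1, ← mul_assoc, hA, mul_assoc]
  have hNker : ∀ x ∈ N.topologicalClosure, (y1 - y2) x = 0 := by
    have h1 : N ≤ LinearMap.ker ((y1 - y2 : E →L[ℂ] ℂ) : E →ₗ[ℂ] ℂ) := by
      rintro x ⟨A, hA, rfl⟩
      exact hker A hA
    have h2 : IsClosed ((LinearMap.ker ((y1 - y2 : E →L[ℂ] ℂ) : E →ₗ[ℂ] ℂ)) : Set E) :=
      (y1 - y2).isClosed_ker
    intro x hx
    exact N.topologicalClosure_minimal h1 h2 hx
  refine ⟨N.topologicalClosure, N.isClosed_topologicalClosure, ?_, ?_, ?_⟩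
  · intro hbot
    apply hBx0
    have h1 : B x0 ∈ N.topologicalClosure :=
      N.le_topologicalClosure (by simpa using hNmem 1 (by rw [one_mul, mul_one]))
    rw [hbot] at h1
    simpa using h1
  · intro htop
    apply hne
    ext x
    have h1 : x ∈ N.topologicalClosure := by rw [htop]; trivial
    rw [hNker x h1]
    rfl
  · intro A hA x hx
    have hmaps : Set.MapsTo A (N : Set E) (N : Set E) := fun y hy => hNinv A hA y hy
    exact hmaps.closure A.continuous hx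

end Pool.Agent.C10
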