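import Pool.Agent.Lib_helper15.C10.P4

/-!
# The core construction, polynomial scheme
-/

set_option autoImplicit false

universe u

namespace Pool.Agent.C10

open Filter Set
open scoped Topology

/-- polynomials and intertwining maps -/
theorem inter_poly' {E : Type u} [NormedAddCommGroup E] [NormedSpace ℂ E] {T : E →L[ℂ] E}
    {Φ : C(Circle, ℂ) →L[ℂ] (E →L[ℂ] ℂ)} (h : Inter T Φ) (p : Polynomial ℂ)
    (f : C(Circle, ℂ)) (x : E) :
    Φ f (Polynomial.aeval T p x) = Φ (Polynomial.aeval zc p * f) x := by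
  have hpow : ∀ (n : ℕ) (f : C(Circle, ℂ)) (x : E), Φ (zc ^ n * f) x = Φ f ((T ^ n) x) := by
    intro n
    induction n with
    | zero => intro f x; simp
    | succ n ih =>
      intro f x
      have h1 : zc ^ (n + 1) * f = zc * (zc ^ n * f) := by rw [pow_succ]; ring
      rw [h1, h, ih]
      simp [pow_succ]
  induction p using Polynomial.induction_on' with
  | add p q hp hq =>
    simp only [map_add, add_mul, add_apply, hp, hq]
  | monomial n a =>
    simp only [Polynomial.aeval_monomial, Algebra.algebraMap_eq_smul_one, smul_mul_assoc, one_mul]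
    rw [map_smul, smul_apply]
    have h1 : (Φ f) (a • (T ^ n) x) = a • (Φ f) ((T ^ n) x) := map_smul (Φ f) a ((T ^ n) x)
    rw [h1, smul_apply, hpow]

theorem aeval_commute' {E : Type u} [NormedAddCommGroup E] [NormedSpace ℂ E] {T A : E →L[ℂ] E}
    (h : A * T = T * A) (p : Polynomial ℂ) :
    A * Polynomial.aeval T p = Polynomial.aeval T p * A := by
  induction p using Polynomial.induction_on' with
  | add p q hp hq => rw [map_add, mul_add, add_mul, hp, hq]
  | monomial n a =>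
    rw [Polynomial.aeval_monomial, Algebra.algebraMap_eq_smul_one, smul_mul_assoc, one_mul,
      mul_smul_comm, smul_mul_assoc]
    congr 1
    exact (show Commute A T from h).pow_right n

theorem modCore2 (hP1 : ModP1) (hP2 : ModP2.{u}) (hP3 : ModP3) (hCtl : ModCtl2.{u}) :
    ModCore2.{u} := by
  intro E _ _ _ _ hrefl T Φ hΦT hΦ x0 hx0 hb
  obtain ⟨L, hp, hAC⟩ := hCtl Φ hΦ
  have hΦ1 : Φ 1 ≠ 0 := fun h => hx0 (by rw [h]; rfl)
  -- choice of `c`
  obtain ⟨c, hc, hc', hcΦ⟩ : ∃ c : ℝ, 0 < c ∧ c < 1 ∧ ‖Φ‖ + 2 < c⁻¹ * ‖Φ 1‖ := by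
    have hpos : 0 < ‖Φ 1‖ := norm_pos_iff.mpr hΦ1
    have hn := norm_nonneg Φ
    refine ⟨min (1 / 2) (‖Φ 1‖ / (‖Φ‖ + 3)), by positivity, ?_, ?_⟩
    · exact (min_le_left _ _).trans_lt (by norm_num)
    · have h1 : min (1 / 2) (‖Φ 1‖ / (‖Φ‖ + 3)) ≤ ‖Φ 1‖ / (‖Φ‖ + 3) := min_le_right _ _
      have h0 : 0 < min (1 / 2) (‖Φ 1‖ / (‖Φ‖ + 3)) := by positivity
      rw [inv_mul_eq_div, lt_div_iff₀ h0]
      calc (‖Φ‖ + 2) * min (1 / 2) (‖Φ 1‖ / (‖Φ‖ + 3)) ≤ (‖Φ‖ + 2) * (‖Φ 1‖ / (‖Φ‖ + 3)) := by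
            gcongr
        _ < ‖Φ 1‖ := by
            rw [mul_div_assoc', div_lt_iff₀ (by positivity)]
            nlinarith
  obtain ⟨b, hb1, hb2⟩ := hb c hc hc'
  obtain ⟨q, n, hS⟩ := Core2.exists_sel2 hP1 hP2 hP3 Φ hΦ L hp c hc hc' b hb2
  -- the operators
  let U : ℕ → (E →L[ℂ] E) := fun K => Polynomial.aeval T (PP c (q K)).1
  have hU2 : ∀ (K : ℕ) (A : E →L[ℂ] E), A * T = T * A → A * U K = U K * A := by
    intro K A hA
    exact aeval_commute' hA _
  have hU3 : ∀ (K : ℕ) (f : C(Circle, ℂ)) (x : E), Φ f (U K x) = Φ (uP c (q K) * f) x := by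
    intro K f x
    rw [← ((hP1 c hc hc' (q K)).2.2 (hS.lac K)).1]
    exact inter_poly' hΦT _ f x
  have hU1 : ∀ K, ‖U K x0‖ ≤ √(b [] + 2) := by
    intro K
    apply Real.le_sqrt_of_sq_le
    exact (hb1 _ (hS.lac K)).trans (hS.bd_le K)
  -- inverses
  have hune : ∀ (l : List ℕ), IsUnit (uP c l) := by
    intro l
    rw [ContinuousMap.isUnit_iff_forall_ne_zero]
    exact fun z => norm_pos_iff.mp ((hP1 c hc hc' l).1 z).1
  have hG : ∀ J, Ring.inverse (uP c (q (J + 1))) = Ring.inverse (uP c (q J)) *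
      Ring.inverse (1 + zc ^ n J * wP c (q J)) := by
    intro J
    rw [hS.succ, Core2.uP_cons, Ring.mul_inverse_rev, mul_comm]
  have hdist : ∀ K J, K ≤ J → ‖Φ (uP c (q K) * Ring.inverse (uP c (q (J + 1)))) -
      Φ (uP c (q K) * Ring.inverse (uP c (q J)))‖ ≤ (1 / 2) ^ J := by
    intro K J hKJ
    have h1 := hS.small K J hKJ
    rw [hG, ← map_sub]
    have e : ∀ a b d : C(Circle, ℂ), a * (b * d) - a * b = a * b * (d - 1) := fun a b d => by ring
    rw [e]
    exact h1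
  have hdist0 : ∀ J, ‖Φ (Ring.inverse (uP c (q (J + 1)))) -
      Φ (Ring.inverse (uP c (q J)))‖ ≤ (1 / 2) ^ J := by
    intro J
    have h1 := hS.small0 J
    rw [hG, ← map_sub]
    have e : ∀ b d : C(Circle, ℂ), b * d - b = b * (d - 1) := fun b d => by ring
    rw [e]
    exact h1
  -- the functional `y1`
  have hcau : CauchySeq fun J => Φ (Ring.inverse (uP c (q J))) := by
    refine cauchySeq_of_le_geometric (1 / 2) 1 (by norm_num) fun J => ?_
    rw [dist_comm, dist_eq_norm, one_mul]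
    exact hdist0 J
  obtain ⟨y1, hy1⟩ := cauchySeq_tendsto_of_complete hcau
  have hy1norm : c⁻¹ * ‖Φ 1‖ ≤ ‖y1‖ + 2 := by
    have h1 : dist (Φ (Ring.inverse (uP c (q 0)))) y1 ≤ 1 / (1 - 1 / 2) := by
      refine dist_le_of_le_geometric_of_tendsto₀ (1 / 2) 1 (by norm_num) (fun J => ?_) hy1
      rw [dist_comm, dist_eq_norm, one_mul]
      exact hdist0 J
    have h2 : Ring.inverse (uP c (q 0)) = ((c : ℂ)⁻¹) • (1 : C(Circle, ℂ)) := by
      rw [hS.zero]
      have hcne : (c : ℂ) ≠ 0 := by exact_mod_cast hc.ne'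
      have h3 : uP c [] * (((c : ℂ)⁻¹) • (1 : C(Circle, ℂ))) = 1 := by
        ext z
        simp [uP, hcne]
      have h4 := Ring.inverse_mul_cancel _ (hune [])
      calc Ring.inverse (uP c []) = Ring.inverse (uP c []) *
            (uP c [] * (((c : ℂ)⁻¹) • (1 : C(Circle, ℂ)))) := by rw [h3, mul_one]
        _ = _ := by rw [← mul_assoc, h4, one_mul]
    rw [h2, map_smul, dist_eq_norm] at h1
    have h3 : ‖((c : ℂ)⁻¹) • Φ 1‖ = c⁻¹ * ‖Φ 1‖ := by
      rw [norm_smul, norm_inv, Complex.norm_real, Real.norm_of_nonneg hc.le]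
    have h4 := norm_sub_norm_le (((c : ℂ)⁻¹) • Φ 1) y1
    rw [h3] at h4
    norm_num at h1
    linarith
  have hy1U : ∀ (K : ℕ) (w : E), ‖y1 (U K w) - Φ 1 w‖ ≤ 2 * (1 / 2) ^ K * ‖w‖ := by
    intro K w
    have hlim : Tendsto (fun J => Φ (uP c (q K) * Ring.inverse (uP c (q (K + J)))) w) atTop
        (𝓝 (y1 (U K w))) := by
      have h1 : Tendsto (fun J => Φ (Ring.inverse (uP c (q (K + J)))) (U K w)) atTop
          (𝓝 (y1 (U K w))) := by
        have h2 : Tendsto (fun J => Φ (Ring.inverse (uP c (q (K + J))))) atTop (𝓝 y1) :=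
          hy1.comp (tendsto_add_atTop_nat K |>.congr fun J => add_comm _ _)
        exact ((ContinuousLinearMap.apply ℂ ℂ (U K w)).continuous.tendsto y1).comp h2
      refine h1.congr fun J => ?_
      rw [hU3]
    have h3 : dist (Φ (uP c (q K) * Ring.inverse (uP c (q (K + 0)))) w) (y1 (U K w)) ≤
        ((1 / 2) ^ K * ‖w‖) / (1 - 1 / 2) := by
      refine dist_le_of_le_geometric_of_tendsto₀ (1 / 2) ((1 / 2) ^ K * ‖w‖) (by norm_num)
        (fun J => ?_) hlim
      rw [dist_comm, dist_eq_norm, ← sub_apply]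
      refine (ContinuousLinearMap.le_opNorm _ _).trans ?_
      have := hdist K (K + J) (Nat.le_add_right _ _)
      calc _ ≤ (1 / 2 : ℝ) ^ (K + J) * ‖w‖ := by gcongr; exact this
        _ = _ := by rw [pow_add]; ring
    have h4 : uP c (q K) * Ring.inverse (uP c (q (K + 0))) = 1 := by
      rw [add_zero, Ring.mul_inverse_cancel _ (hune _)]
    rw [h4, dist_comm, dist_eq_norm] at h3
    refine h3.trans (le_of_eq ?_)
    ring
  -- the functional `y2`
  have hΦn : ∀ J, ‖Φ (star (uP c (q J)))‖ ≤ ‖Φ‖ := by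
    intro J
    refine (Φ.le_opNorm _).trans ?_
    have h1 : ‖star (uP c (q J))‖ ≤ 1 := by
      rw [norm_star, ContinuousMap.norm_le _ zero_le_one]
      exact fun z => (((hP1 c hc hc' (q J)).1 z).2).le
    calc ‖Φ‖ * ‖star (uP c (q J))‖ ≤ ‖Φ‖ * 1 := by gcongr
      _ = ‖Φ‖ := mul_one _
  let UF : Ultrafilter ℕ := Filter.hyperfilter ℕ
  have hUF : (UF : Filter ℕ) ≤ atTop := Nat.hyperfilter_le_atTop
  obtain ⟨y2, hy2n, hy2⟩ : ∃ y2 : E →L[ℂ] ℂ, ‖y2‖ ≤ ‖Φ‖ ∧ ∀ w : E,
      Tendsto (fun J => Φ (star (uP c (q J))) w) UF (𝓝 (y2 w)) := by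
    have hcomp := WeakDual.isCompact_closedBall (0 : E →L[ℂ] ℂ) ‖Φ‖
    let v : ℕ → WeakDual ℂ E := fun J => StrongDual.toWeakDual (Φ (star (uP c (q J))))
    have hle : ((UF.map v : Ultrafilter (WeakDual ℂ E)) : Filter (WeakDual ℂ E)) ≤
        𝓟 (WeakDual.toStrongDual ⁻¹' Metric.closedBall (0 : E →L[ℂ] ℂ) ‖Φ‖) := by
      rw [le_principal_iff]
      refine Filter.mem_map.mpr (Filter.mem_of_superset Filter.univ_mem fun J _ => ?_)
      simp only [mem_preimage, mem_closedBall_zero_iff]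
      exact hΦn J
    obtain ⟨y, hy, hlim⟩ := hcomp.ultrafilter_le_nhds _ hle
    refine ⟨WeakDual.toStrongDual y, by simpa using hy, fun w => ?_⟩
    have hc : Continuous fun φ : WeakDual ℂ E => φ w := WeakDual.eval_continuous w
    exact (hc.tendsto y).comp hlim
  have hnorm2 : ∀ K J, ‖uP c (q K) * star (uP c (q J)) - 1‖ ≤ 2 := by
    intro K J
    rw [ContinuousMap.norm_le _ (by norm_num)]
    intro z
    have a := (((hP1 c hc hc' (q K)).1 z).2).le
    have b := (((hP1 c hc hc' (q J)).1 z).2).le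
    simp only [ContinuousMap.sub_apply, ContinuousMap.mul_apply, ContinuousMap.star_apply,
        ContinuousMap.one_apply]
    refine (norm_sub_le _ _).trans ?_
    rw [norm_mul, norm_star, norm_one]
    have := mul_le_mul a b (norm_nonneg _) zero_le_one
    linarith
  have hy2U : ∀ (w : E) (ε : ℝ), 0 < ε → ∃ K₀ : ℕ, ∀ K, K₀ ≤ K →
      ‖y2 (U K w) - Φ 1 w‖ ≤ ε := by
    intro w ε hε
    obtain ⟨δ, hδ, hδ'⟩ := hAC w ε hε
    obtain ⟨K₀, hK₀⟩ := hS.control hP1 hc hc' hp hδ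
    refine ⟨K₀, fun K hK => ?_⟩
    have hlim : Tendsto (fun J => ‖Φ (star (uP c (q J))) (U K w) - Φ 1 w‖) UF
        (𝓝 ‖y2 (U K w) - Φ 1 w‖) := ((hy2 (U K w)).sub_const _).norm
    refine le_of_tendsto hlim ?_
    have hev : ∀ᶠ J in atTop, ‖Φ (star (uP c (q J))) (U K w) - Φ 1 w‖ ≤ ε := by
      filter_upwards [eventually_ge_atTop K] with J hJ
      rw [hU3, ← sub_apply, ← map_sub]
      exact hδ' _ (hnorm2 K J) (hK₀ K hK J hJ)
    exact hUF hev
  -- their difference
  have hne : y1 - y2 ≠ 0 := by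
    intro h0
    have h1 : y1 = y2 := sub_eq_zero.mp h0
    rw [h1] at hy1norm
    linarith
  have hyU : ∀ w : E, Tendsto (fun K => (y1 - y2) (U K w)) atTop (𝓝 0) := by
    intro w
    have h1 : Tendsto (fun K => y1 (U K w) - Φ 1 w) atTop (𝓝 0) := by
      rw [tendsto_zero_iff_norm_tendsto_zero]
      have h2 : Tendsto (fun K : ℕ => 2 * (1 / 2 : ℝ) ^ K * ‖w‖) atTop (𝓝 (2 * 0 * ‖w‖)) :=
        ((tendsto_pow_atTop_nhds_zero_of_lt_one (by norm_num) (by norm_num)).const_mul 2).mul_const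
          _
      rw [mul_zero, zero_mul] at h2
      exact squeeze_zero (fun _ => norm_nonneg _) (fun K => hy1U K w) h2
    have h2 : Tendsto (fun K => y2 (U K w) - Φ 1 w) atTop (𝓝 0) := by
      rw [Metric.tendsto_atTop]
      intro ε hε
      obtain ⟨K₀, hK₀⟩ := hy2U w (ε / 2) (half_pos hε)
      refine ⟨K₀, fun K hK => ?_⟩
      rw [dist_zero_right]
      linarith [hK₀ K hK]
    have h3 := h1.sub h2
    rw [sub_zero] at h3
    refine h3.congr fun K => ?_
    rw [sub_apply]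
    ring
  -- the limit vector
  obtain ⟨x, -, hx⟩ := Pool.Agent.Lib_helper15.exists_weak_ulim hrefl UF (fun K => U K x0)
    (√(b [] + 2)) hU1
  have hxne : x ≠ 0 := by
    intro h0
    have h1 := hx y2
    have h2 : Tendsto (fun K => y2 (U K x0)) UF (𝓝 (Φ 1 x0)) := by
      have h3 : Tendsto (fun K => y2 (U K x0)) atTop (𝓝 (Φ 1 x0)) := by
        rw [Metric.tendsto_atTop]
        intro ε hε
        obtain ⟨K₀, hK₀⟩ := hy2U x0 (ε / 2) (half_pos hε)
        refine ⟨K₀, fun K hK => ?_⟩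
        rw [dist_eq_norm]
        linarith [hK₀ K hK]
      exact h3.mono_left hUF
    have h3 := tendsto_nhds_unique h1 h2
    rw [h0, map_zero] at h3
    exact hx0 h3.symm
  have hker : ∀ A : E →L[ℂ] E, A * T = T * A → (y1 - y2) (A x) = 0 := by
    intro A hA
    have h1 := hx ((y1 - y2).comp A)
    have h2 : Tendsto (fun K => ((y1 - y2).comp A) (U K x0)) UF (𝓝 0) := by
      have h3 : Tendsto (fun K => ((y1 - y2).comp A) (U K x0)) atTop (𝓝 0) := by
        refine (hyU (A x0)).congr fun K => ?_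
        have h4 := congrArg (fun S : E →L[ℂ] E => S x0) (hU2 K A hA)
        simp only [mul_apply_eq_comp] at h4
        rw [ContinuousLinearMap.comp_apply, h4]
      exact h3.mono_left hUF
    exact tendsto_nhds_unique h1 h2
  -- the subspace
  let N : Submodule ℂ E := Submodule.map
    (((ContinuousLinearMap.apply ℂ E x) : (E →L[ℂ] E) →ₗ[ℂ] E))
    (Pool.Agent.Lib_helper15.commutantSubmodule T)
  have hNmem : ∀ A : E →L[ℂ] E, A * T = T * A → A x ∈ N := fun A hA =>
    ⟨A, hA, rfl⟩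
  have hNinv : ∀ A : E →L[ℂ] E, A * T = T * A → ∀ x ∈ N, A x ∈ N := by
    rintro A hA x ⟨A', hA', rfl⟩
    refine ⟨A * A', ?_, rfl⟩
    show A * A' * T = T * (A * A')
    have h1 : A' * T = T * A' := hA'
    rw [mul_assoc, h1, ← mul_assoc, hA, mul_assoc]
  have hNker : ∀ x ∈ N.topologicalClosure, (y1 - y2) x = 0 := by
    have h1 : N ≤ LinearMap.ker ((y1 - y2 : E →L[ℂ] ℂ) : E →ₗ[ℂ] ℂ) := by
      rintro x ⟨A, hA, rfl⟩
      exact hker A hA
    have h2 : IsClosed ((LinearMap.ker ((y1 - y2 : E →L[ℂ] ℂ) : E →ₗ[ℂ] ℂ)) : Set E) :=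
      (y1 - y2).isClosed_ker
    intro x hx
    exact N.topologicalClosure_minimal h1 h2 hx
  refine ⟨N.topologicalClosure, N.isClosed_topologicalClosure, ?_, ?_, ?_⟩
  · intro hbot
    apply hxne
    have h1 : x ∈ N.topologicalClosure :=
      N.le_topologicalClosure (by simpa using hNmem 1 (by rw [one_mul, mul_one]))
    rw [hbot] at h1
    simpa using h1
  · intro htop
    apply hne
    ext x
    have h1 : x ∈ N.topologicalClosure := by rw [htop]; trivial
    rw [hNker x h1]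
    rfl
  · intro A hA x hx
    have hmaps : Set.MapsTo A (N : Set E) (N : Set E) := fun y hy => hNinv A hA y hy
    exact hmaps.closure A.continuous hx

end Pool.Agent.C10
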