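import Pool.Agent.Lib_helper15.C10.Defs

/-!
# Assembly
-/

set_option autoImplicit false

universe u

namespace Pool.Agent.C10

open Filter Set
open scoped Topology

theorem inter_pow {E : Type u} [NormedAddCommGroup E] [NormedSpace ℂ E] {T : E →L[ℂ] E}
    {Φ : C(Circle, ℂ) →L[ℂ] (E →L[ℂ] ℂ)} (h : Inter T Φ) (n : ℕ) (f : C(Circle, ℂ)) :
    Φ (zc ^ n * f) = (Φ f).comp (T ^ n) := by
  induction n generalizing f with
  | zero => ext x; simp
  | succ n ih =>
    ext x
    have h1 : zc ^ (n + 1) * f = zc * (zc ^ n * f) := by rw [pow_succ]; ring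
    rw [h1, h, ih]
    simp [pow_succ]

theorem final_of_coStable (hS1 : ModS1.{u}) (hcore : ModCore.{u}) {E : Type u}
    [NormedAddCommGroup E] [NormedSpace ℂ E] [CompleteSpace E]
    [TopologicalSpace.SeparableSpace E] (hrefl : Refl E) (T : E →L[ℂ] E) (C : ℝ)
    (hT : PolyBddBy C T) (h1 : ¬ Stable T) (h2 : CoStable T) : HasHyper T := by
  obtain ⟨Φ, hΦ, hΦ1⟩ := hS1 T C hT h1
  refine hcore hrefl T C hT Φ hΦ hΦ1 fun f => ?_
  refine (h2 (Φ f)).congr fun n => ?_
  rw [inter_pow hΦ]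

/-- Hilbert spaces are reflexive. -/
theorem refl_hilbert {H : Type u} [NormedAddCommGroup H] [InnerProductSpace ℂ H]
    [CompleteSpace H] : Refl H := by
  intro ξ
  let φ : H →L[ℂ] ℂ := LinearMap.mkContinuous
    { toFun := fun x => (starRingEnd ℂ) (ξ (InnerProductSpace.toDual ℂ H x))
      map_add' := fun x y => by simp [map_add]
      map_smul' := fun c x => by simp [map_smulₛₗ] } ‖ξ‖ (fun x => by
        simp only [LinearMap.coe_mk, AddHom.coe_mk, RCLike.norm_conj]
        refine (ξ.le_opNorm _).trans ?_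
        rw [LinearIsometryEquiv.norm_map])
  refine ⟨(InnerProductSpace.toDual ℂ H).symm φ, ?_⟩
  ext f
  obtain ⟨x, rfl⟩ := (InnerProductSpace.toDual ℂ H).surjective f
  have h1 : inner ℂ ((InnerProductSpace.toDual ℂ H).symm φ) x = φ x := by simp
  rw [NormedSpace.dual_def, InnerProductSpace.toDual_apply_apply, ← inner_conj_symm, h1]
  simp [φ]

theorem modFinal (hS1 : ModS1.{u}) (hS2 : ModS2.{u}) (hTR : ModTR.{u}) (hcore : ModCore.{u})
    (hVN : ModVN.{u}) : ModFinal.{u} := by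
  have main : ∀ {E : Type u} [NormedAddCommGroup E] [NormedSpace ℂ E] [CompleteSpace E]
      [TopologicalSpace.SeparableSpace E], Refl E → ∀ (T : E →L[ℂ] E) (C : ℝ), PolyBddBy C T →
      (∀ c : ℂ, T ≠ c • (1 : E →L[ℂ] E)) → ¬ (Stable T ∧ CoStable T) → HasHyper T := by
    intro E _ _ _ _ hrefl T C hT hne h00
    by_cases h1 : Stable T
    · have h2 : ¬ CoStable T := fun h => h00 ⟨h1, h⟩
      obtain ⟨a1, a2, a3, a4⟩ := hTR (E := E)
      obtain ⟨b1, b2, b3, b4⟩ := a4 hrefl
      have : TopologicalSpace.SeparableSpace (E →L[ℂ] ℂ) := b4 inferInstance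
      apply b3
      exact final_of_coStable hS1 hcore b1 (tr T) C (a1 T C hT) (fun h => h2 ((a3 T).mpr h))
        ((b2 T).mp h1)
    · by_cases h2 : CoStable T
      · exact final_of_coStable hS1 hcore hrefl T C hT h1 h2
      · exact hS2 hrefl T C hT hne h1 h2
  refine ⟨main, ?_⟩
  intro H _ _ _ _ T hT hne h00
  exact main refl_hilbert T 1 (hVN T hT) hne h00

end Pool.Agent.C10
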