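import Pool.Agent.Lib_helper15.C10.Defs3
import Pool.Agent.Lib_helper15.C10.Final

/-!
# Assembly: power bounded operators
-/

set_option autoImplicit false

universe u

namespace Pool.Agent.C10

open Filter Set
open scoped Topology

/-- the polynomial scheme also gives the polynomially bounded case -/
theorem modCore_of_core2 (hP1 : ModP1) (hcore : ModCore2.{u}) : ModCore.{u} := by
  intro E _ _ _ _ hrefl T C hT Φ hΦT hΦ1 hΦ
  obtain ⟨x0, hx0⟩ : ∃ x0 : E, Φ 1 x0 ≠ 0 := by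
    by_contra hcon
    push Not at hcon
    exact hΦ1 (ContinuousLinearMap.ext hcon)
  refine hcore hrefl T Φ hΦT hΦ x0 hx0 fun c hc hc' => ⟨fun _ => (C * ‖x0‖) ^ 2, ?_, ?_⟩
  · intro l hl
    have h1 := hT (PP c l).1 1 (((hP1 c hc hc' l).2.2 hl).2.2.2)
    have h2 : ‖Polynomial.aeval T (PP c l).1 x0‖ ≤ C * ‖x0‖ := by
      refine (ContinuousLinearMap.le_opNorm _ _).trans ?_
      rw [mul_one] at h1
      exact mul_le_mul_of_nonneg_right h1 (norm_nonneg _)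
    exact pow_le_pow_left₀ (norm_nonneg _) h2 2
  · intro l ε hε
    exact Eventually.of_forall fun n => by linarith

theorem final2_of_coStable (hP1 : ModP1) (hH1 : ModH1.{u}) (hH2 : ModH2.{u}) (hH3 : ModH3.{u})
    (hcore : ModCore2.{u}) {H : Type u} [NormedAddCommGroup H] [InnerProductSpace ℂ H]
    [CompleteSpace H] [TopologicalSpace.SeparableSpace H] (T : H →L[ℂ] H) (M : ℝ)
    (hM : ∀ n : ℕ, ‖T ^ n‖ ≤ M) (h1 : ¬ Stable T) (h2 : CoStable T) : HasHyper T := by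
  obtain ⟨B, hB⟩ := hH1 T M hM
  obtain ⟨x0, hx0⟩ : ∃ x0 : H, (B x0 x0).re ≠ 0 := by
    by_contra hcon
    push Not at hcon
    apply h1
    intro x
    rw [tendsto_zero_iff_norm_tendsto_zero]
    have h3 : Tendsto (fun n : ℕ => ‖(T ^ n) x‖ ^ 2) atTop (𝓝 0) := by
      rw [Metric.tendsto_atTop]
      intro ε hε
      obtain ⟨N, hN⟩ := eventually_atTop.mp (hB.2.2.2.1 x (ε / 2) (half_pos hε))
      refine ⟨N, fun n hn => ?_⟩
      have h4 := hN n hn
      rw [hcon x, mul_zero, zero_add] at h4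
      rw [dist_zero_right, Real.norm_of_nonneg (by positivity)]
      linarith
    have h5 := h3.sqrt
    rw [Real.sqrt_zero] at h5
    exact h5.congr fun n => Real.sqrt_sq (norm_nonneg _)
  obtain ⟨Φ, hΦ, hΦ1⟩ := hH2 T M B hB x0
  have hΦ0 : Φ 1 x0 ≠ 0 := by
    intro h0
    rw [hΦ1] at h0
    exact hx0 (by rw [h0]; rfl)
  refine hcore refl_hilbert T Φ hΦ (fun f => ?_) x0 hΦ0 fun c hc hc' =>
    ⟨pot T M B c x0, fun l hl => ?_, fun l ε hε => hH3 T M B hB h2 c x0 l ε hε⟩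
  · refine (h2 (Φ f)).congr fun n => ?_
    rw [inter_pow hΦ]
  · have h3 := hB.2.2.2.2 (PP c l).1 (((hP1 c hc hc' l).2.2 hl).2.2.2) x0
    rw [pot]
    have h4 : 0 ≤ M ^ 2 * ((B x0 x0).re -
        (B (Polynomial.aeval T (PP c l).1 x0) (Polynomial.aeval T (PP c l).1 x0)).re) :=
      mul_nonneg (by positivity) (by linarith)
    linarith

theorem exists_inter_of_not_stable (hH1 : ModH1.{u}) (hH2 : ModH2.{u}) {H : Type u}
    [NormedAddCommGroup H] [InnerProductSpace ℂ H] [CompleteSpace H] (T : H →L[ℂ] H) (M : ℝ)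
    (hM : ∀ n : ℕ, ‖T ^ n‖ ≤ M) (h1 : ¬ Stable T) :
    ∃ Φ : C(Circle, ℂ) →L[ℂ] (H →L[ℂ] ℂ), Inter T Φ ∧ Φ 1 ≠ 0 := by
  obtain ⟨B, hB⟩ := hH1 T M hM
  obtain ⟨x0, hx0⟩ : ∃ x0 : H, (B x0 x0).re ≠ 0 := by
    by_contra hcon
    push Not at hcon
    apply h1
    intro x
    rw [tendsto_zero_iff_norm_tendsto_zero]
    have h3 : Tendsto (fun n : ℕ => ‖(T ^ n) x‖ ^ 2) atTop (𝓝 0) := by
      rw [Metric.tendsto_atTop]
      intro ε hε
      obtain ⟨N, hN⟩ := eventually_atTop.mp (hB.2.2.2.1 x (ε / 2) (half_pos hε))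
      refine ⟨N, fun n hn => ?_⟩
      have h4 := hN n hn
      rw [hcon x, mul_zero, zero_add] at h4
      rw [dist_zero_right, Real.norm_of_nonneg (by positivity)]
      linarith
    have h5 := h3.sqrt
    rw [Real.sqrt_zero] at h5
    exact h5.congr fun n => Real.sqrt_sq (norm_nonneg _)
  obtain ⟨Φ, hΦ, hΦ1⟩ := hH2 T M B hB x0
  refine ⟨Φ, hΦ, fun h0 => hx0 ?_⟩
  rw [← hΦ1, h0]
  rfl

theorem modFinal2 (hP1 : ModP1) (hH1 : ModH1.{u}) (hH2 : ModH2.{u}) (hH3 : ModH3.{u})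
    (hADJ : ModADJ.{u}) (hcore : ModCore2.{u}) (hS2 : ModS2g.{u}) : ModFinal2.{u} := by
  intro H _ _ _ _ T M hM hne h00
  obtain ⟨a1, a2, a3, a4, a5⟩ := hADJ T
  by_cases h1 : Stable T
  · have h2 : ¬ CoStable T := fun h => h00 ⟨h1, h⟩
    apply a4
    exact final2_of_coStable hP1 hH1 hH2 hH3 hcore _ M (a3 M hM) (fun h => h2 (a1.mpr h))
      (a2.mp h1)
  · by_cases h2 : CoStable T
    · exact final2_of_coStable hP1 hH1 hH2 hH3 hcore T M hM h1 h2
    · obtain ⟨Φ, hΦ, hΦ1⟩ := exists_inter_of_not_stable hH1 hH2 T M hM h1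
      obtain ⟨Ψ, hΨ, hΨ1⟩ := a5 (exists_inter_of_not_stable hH1 hH2 _ M (a3 M hM)
        (fun h => h2 (a1.mpr h)))
      exact hS2 refl_hilbert T hne Φ hΦ hΦ1 Ψ hΨ hΨ1

/-- polynomially bounded operators on separable reflexive spaces -/
theorem modFinalBanach (hS1 : ModS1.{u}) (hS2 : ModS2.{u}) (hTR : ModTR.{u})
    (hcore : ModCore.{u}) : ∀ {E : Type u} [NormedAddCommGroup E] [NormedSpace ℂ E]
    [CompleteSpace E] [TopologicalSpace.SeparableSpace E], Refl E → ∀ (T : E →L[ℂ] E) (C : ℝ),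
    PolyBddBy C T → (∀ c : ℂ, T ≠ c • (1 : E →L[ℂ] E)) → ¬ (Stable T ∧ CoStable T) →
    HasHyper T := by
  intro E _ _ _ _ hrefl T C hT hne h00
  by_cases h1 : Stable T
  · have h2 : ¬ CoStable T := fun h => h00 ⟨h1, h⟩
    obtain ⟨a1, a2, a3, a4⟩ := hTR (E := E)
    obtain ⟨b1, b2, b3, b4⟩ := a4 hrefl
    have : TopologicalSpace.SeparableSpace (E →L[ℂ] ℂ) := b4 inferInstance
    apply b3
    exact final_of_coStable hS1 hcore b1 (tr T) C (a1 T C hT) (fun h => h2 ((a3 T).mpr h))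
      ((b2 T).mp h1)
  · by_cases h2 : CoStable T
    · exact final_of_coStable hS1 hcore hrefl T C hT h1 h2
    · exact hS2 hrefl T C hT hne h1 h2

end Pool.Agent.C10
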