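import Pool.Agent.Lib_helper15.C10.Defs

/-!
# Pointwise facts on exponentials of the lacunary functions
-/

set_option autoImplicit false

namespace Pool.Agent.C10

open Filter Set
open scoped Topology

@[simp] theorem ex_apply (f : C(Circle, ℂ)) (z : Circle) : ex f z = Complex.exp (f z) := rfl

@[simp] theorem absC_apply (f : C(Circle, ℂ)) (z : Circle) : absC f z = ‖f z‖ := rfl

@[simp] theorem sq_apply (f : C(Circle, ℂ)) (z : Circle) : sq f z = √(f z).re := rfl

@[simp] theorem zc_apply (z : Circle) : zc z = (z : ℂ) := rfl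

theorem ex_add (f g : C(Circle, ℂ)) : ex (f + g) = ex f * ex g := by
  ext z
  simp [Complex.exp_add]

theorem ex_zero : ex 0 = 1 := by
  ext z
  simp

namespace Core

/-- the exponential is contractive on the left half plane -/
theorem norm_exp_sub_exp_le {a b : ℂ} (ha : a.re ≤ 0) (hb : b.re ≤ 0) :
    ‖Complex.exp a - Complex.exp b‖ ≤ ‖a - b‖ := by
  have hconv : Convex ℝ {z : ℂ | z.re ≤ 0} := convex_halfSpace_re_le 0
  have := hconv.norm_image_sub_le_of_norm_hasDerivWithin_le (f := Complex.exp)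
    (f' := Complex.exp) (C := 1) (x := b) (y := a)
    (fun x _ => (Complex.hasDerivAt_exp x).hasDerivWithinAt)
    (fun x hx => by
      rw [Complex.norm_exp]
      exact Real.exp_le_one_iff.mpr hx) hb ha
  simpa using this

variable {s : ℝ}

/-- `u l = exp(-s p_l)` -/
noncomputable def uu (s : ℝ) (l : List ℕ) : C(Circle, ℂ) := ex (-((s : ℂ) • pL l))

theorem uu_apply (l : List ℕ) (z : Circle) : uu s l z = Complex.exp (-((s : ℂ) * pL l z)) := rfl

theorem norm_uu (hC1 : ModC1) (l : List ℕ) (hl : Lac l) (z : Circle) :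
    ‖uu s l z‖ = Real.exp (-(s * (hL l z).re)) := by
  rw [uu_apply, Complex.norm_exp]
  congr 1
  have := (((hC1 l hl).1 z).2.2)
  simp [this]

theorem norm_uu_le (hC1 : ModC1) (hs : 0 ≤ s) (l : List ℕ) (hl : Lac l) (z : Circle) :
    ‖uu s l z‖ ≤ 1 := by
  rw [norm_uu hC1 l hl]
  have := (((hC1 l hl).1 z).2.1)
  exact Real.exp_le_one_iff.mpr (by have := mul_nonneg hs this; linarith)

theorem norm_uu_sub_le (hC1 : ModC1) (hs : 0 ≤ s) (n : ℕ) (l : List ℕ) (hl : Lac (n :: l))
    (z : Circle) : ‖uu s (n :: l) z - uu s l z‖ ≤ √(2 * s) * √(hL l z).re := by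
  have h0 := (((hC1 l hl.2).1 z).2.1)
  have h1 : ‖uu s (n :: l) z - uu s l z‖ ≤ s * (hL l z).re := by
    rw [uu_apply, uu_apply]
    have e1 : ((-((s : ℂ) * pL (n :: l) z)).re : ℝ) ≤ 0 := by
      have a1 := (((hC1 (n :: l) hl).1 z).2.1)
      have a2 := (((hC1 (n :: l) hl).1 z).2.2)
      have := mul_nonneg hs a1
      simp [a2]
      linarith
    have e2 : ((-((s : ℂ) * pL l z)).re : ℝ) ≤ 0 := by
      have a2 := (((hC1 l hl.2).1 z).2.2)
      have := mul_nonneg hs h0
      simp [a2]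
      linarith
    refine (norm_exp_sub_exp_le e1 e2).trans (le_of_eq ?_)
    have h3 : -((s : ℂ) * pL (n :: l) z) - -((s : ℂ) * pL l z) =
        -((s : ℂ) * ((z : ℂ) ^ n * hL l z)) := by
      simp [pL]
      ring
    rw [h3, norm_neg, norm_mul, norm_mul, norm_pow, Circle.norm_coe, one_pow, one_mul,
      Complex.norm_real, Real.norm_of_nonneg hs]
    congr 1
    have him := (((hC1 l hl.2).1 z).1)
    have : hL l z = ((hL l z).re : ℂ) := by
      apply Complex.ext <;> simp [him]
    rw [this, Complex.norm_real, Real.norm_of_nonneg h0, Complex.ofReal_re]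
  have h2 : ‖uu s (n :: l) z - uu s l z‖ ≤ 2 := by
    refine (norm_sub_le _ _).trans ?_
    have a := norm_uu_le hC1 hs (n :: l) hl z
    have b := norm_uu_le hC1 hs l hl.2 z
    linarith
  rw [← Real.sqrt_mul (by linarith)]
  set t := s * (hL l z).re with ht
  have ht0 : 0 ≤ t := mul_nonneg hs h0
  have : 2 * s * (hL l z).re = 2 * t := by rw [ht]; ring
  rw [this]
  rcases le_total t 2 with h | h
  · refine h1.trans (Real.le_sqrt_of_sq_le ?_)
    nlinarith
  · refine h2.trans (Real.le_sqrt_of_sq_le ?_)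
    nlinarith

theorem one_sub_normSq_le (hC1 : ModC1) (hs : 0 ≤ s) (l : List ℕ) (hl : Lac l)
    (z : Circle) : 1 - ‖uu s l z‖ ^ 2 ≤ √(2 * s) * √(hL l z).re := by
  have h0 := (((hC1 l hl).1 z).2.1)
  rw [norm_uu hC1 l hl, ← Real.sqrt_mul (by linarith), ← Real.exp_nat_mul]
  set t := s * (hL l z).re with ht
  have ht0 : 0 ≤ t := mul_nonneg hs h0
  have : 2 * s * (hL l z).re = 2 * t := by rw [ht]; ring
  rw [this]
  have e1 : 1 - 2 * t ≤ Real.exp (((2 : ℕ) : ℝ) * -t) := by
    have := Real.add_one_le_exp (((2 : ℕ) : ℝ) * -t)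
    push_cast at *
    linarith
  have e2 := Real.exp_pos (((2 : ℕ) : ℝ) * -t)
  rcases le_total (2 * t) 1 with h | h
  · refine le_trans (by linarith) (Real.le_sqrt_of_sq_le (x := 2 * t) ?_)
    nlinarith
  · refine le_trans (by linarith) (Real.le_sqrt_of_sq_le (x := 1) ?_)
    nlinarith

/-- the main pointwise estimate -/
theorem abs_uu_mul_star_sub_one (hC1 : ModC1) (hs : 0 ≤ s) (q : ℕ → List ℕ) (n : ℕ → ℕ)
    (hq : ∀ J, q (J + 1) = n J :: q J) (hlac : ∀ J, Lac (q J)) (K J : ℕ) (hKJ : K ≤ J) :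
    absC (uu s (q K) * star (uu s (q J)) - 1) ≤
      √(2 * s) • ∑ i ∈ Finset.Ico K (J + 1), sq (hL (q i)) := by
  rw [ContinuousMap.le_def]
  intro z
  have hdiff : ∀ J, K ≤ J → ‖uu s (q J) z - uu s (q K) z‖ ≤
      √(2 * s) * ∑ i ∈ Finset.Ico K J, √(hL (q i) z).re := by
    intro J hJ
    induction J, hJ using Nat.le_induction with
    | base => simp
    | succ J hJ ih =>
      have h1 := norm_uu_sub_le hC1 hs (n J) (q J) (by rw [← hq J]; exact hlac _) z
      rw [← hq J] at h1
      rw [Finset.sum_Ico_succ_top hJ, mul_add]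
      calc ‖uu s (q (J + 1)) z - uu s (q K) z‖
          = ‖(uu s (q (J + 1)) z - uu s (q J) z) + (uu s (q J) z - uu s (q K) z)‖ := by
            congr 1; ring
        _ ≤ _ := norm_add_le _ _
        _ ≤ _ := by linarith
  have e : (uu s (q K) * star (uu s (q J)) - 1) z =
      (uu s (q K) z - uu s (q J) z) * star (uu s (q J) z) +
        (((‖uu s (q J) z‖ ^ 2 - 1 : ℝ)) : ℂ) := by
    have h2 : ((‖uu s (q J) z‖ : ℂ)) ^ 2 = uu s (q J) z * star (uu s (q J) z) := by
      rw [← Complex.mul_conj' (uu s (q J) z)]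
      rfl
    simp only [ContinuousMap.sub_apply, ContinuousMap.mul_apply, ContinuousMap.star_apply,
      ContinuousMap.one_apply]
    push_cast
    rw [h2]
    ring
  have hle1 := norm_uu_le hC1 hs (q J) (hlac J) z
  have h3 : |‖uu s (q J) z‖ ^ 2 - 1| ≤ √(2 * s) * √(hL (q J) z).re := by
    rw [abs_sub_comm, abs_of_nonneg]
    · exact one_sub_normSq_le hC1 hs (q J) (hlac J) z
    · have := norm_nonneg (uu s (q J) z)
      nlinarith
  have h4 := hdiff J hKJ
  rw [absC_apply, e]
  refine (norm_add_le _ _).trans ?_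
  rw [norm_mul, Complex.norm_real, Real.norm_eq_abs, norm_star, norm_sub_rev]
  have h5 : (√(2 * s) • ∑ i ∈ Finset.Ico K (J + 1), sq (hL (q i))) z =
      √(2 * s) * ∑ i ∈ Finset.Ico K (J + 1), √(hL (q i) z).re := by
    simp
  rw [h5, Finset.sum_Ico_succ_top hKJ, mul_add]
  have h6 : ‖uu s (q J) z - uu s (q K) z‖ * ‖uu s (q J) z‖ ≤
      ‖uu s (q J) z - uu s (q K) z‖ * 1 := by
    gcongr
  linarith

theorem norm_uu_mul_star_sub_one_le (hC1 : ModC1) (hs : 0 ≤ s) (l l' : List ℕ) (hl : Lac l)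
    (hl' : Lac l') : ‖uu s l * star (uu s l') - 1‖ ≤ 2 := by
  rw [ContinuousMap.norm_le _ (by norm_num)]
  intro z
  have a := norm_uu_le hC1 hs l hl z
  have b := norm_uu_le hC1 hs l' hl' z
  simp only [ContinuousMap.sub_apply, ContinuousMap.mul_apply, ContinuousMap.star_apply,
      ContinuousMap.one_apply]
  refine (norm_sub_le _ _).trans ?_
  rw [norm_mul, norm_star, norm_one]
  have := mul_le_mul a b (norm_nonneg _) zero_le_one
  linarith

end Core

end Pool.Agent.C10
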