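import Pool.Agent.Lib_helper15.C10.Defs3
import Pool.Agent.Lib_helper15.C10.Core

/-!
# The polynomial scheme: selection and control
-/

set_option autoImplicit false

universe u

namespace Pool.Agent.C10

open Filter Set
open scoped Topology

namespace Core2

theorem uP_cons (c : ℝ) (n : ℕ) (l : List ℕ) :
    uP c (n :: l) = uP c l * (1 + zc ^ n * wP c l) := rfl

@[simp] theorem nsq_apply (f : C(Circle, ℂ)) (z : Circle) : nsq f z = ‖f z‖ ^ 2 := rfl

@[simp] theorem reC_apply (f : C(Circle, ℂ)) (z : Circle) : reC f z = (f z).re := rfl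

theorem nlog_apply (f : C(Circle, ℂ)) (h : ∀ z, f z ≠ 0) (z : Circle) :
    nlog f z = - Real.log ‖f z‖ := by
  rw [nlog, dif_pos h]
  rfl

/-- the chosen sequence of lists -/
structure Sel2 {F : Type*} [NormedAddCommGroup F] [NormedSpace ℂ F] (Φ : C(Circle, ℂ) →L[ℂ] F)
    (L : C(Circle, ℝ) →ₗ[ℝ] ℝ) (c : ℝ) (b : List ℕ → ℝ) (q : ℕ → List ℕ) (n : ℕ → ℕ) :
    Prop where
  zero : q 0 = []
  succ : ∀ J, q (J + 1) = n J :: q J
  lac : ∀ J, Lac2 (q J)
  small : ∀ K J, K ≤ J → ‖Φ (uP c (q K) * Ring.inverse (uP c (q J)) *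
    (Ring.inverse (1 + zc ^ n J * wP c (q J)) - 1))‖ ≤ (1 / 2) ^ J
  small0 : ∀ J, ‖Φ (Ring.inverse (uP c (q J)) *
    (Ring.inverse (1 + zc ^ n J * wP c (q J)) - 1))‖ ≤ (1 / 2) ^ J
  unit : ∀ J, IsUnit (1 + zc ^ n J * wP c (q J))
  grow : ∀ J, L (nsq (uP c (q J))) + (1 / 4) * L (nsq (uP c (q J)) * (1 - nsq (uP c (q J))) ^ 2)
    - (1 / 2) ^ J ≤ L (nsq (uP c (q (J + 1))))
  log : ∀ J, L (nlog (uP c (q (J + 1)))) ≤ L (nlog (uP c (q J))) + (1 / 2) ^ J
  corr : ∀ K J, K ≤ J →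
    |L (reC (zc ^ n J * (wP c (q J) * uP c (q J) * star (uP c (q K)))))| ≤ (1 / 2) ^ J
  bd : ∀ J, b (q (J + 1)) ≤ b (q J) + (1 / 2) ^ J

theorem exists_sel2 (hP1 : ModP1) (hP2 : ModP2.{u}) (hP3 : ModP3) {F : Type u}
    [NormedAddCommGroup F] [NormedSpace ℂ F] (Φ : C(Circle, ℂ) →L[ℂ] F)
    (hΦ : ∀ f, Tendsto (fun n : ℕ => Φ (zc ^ n * f)) atTop (𝓝 0))
    (L : C(Circle, ℝ) →ₗ[ℝ] ℝ) (hp : PosR2 L) (c : ℝ) (hc : 0 < c) (hc' : c < 1)
    (b : List ℕ → ℝ)
    (hb : ∀ (l : List ℕ) (ε : ℝ), 0 < ε → ∀ᶠ n : ℕ in atTop, b (n :: l) ≤ b l + ε) :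
    ∃ (q : ℕ → List ℕ) (n : ℕ → ℕ), Sel2 Φ L c b q n := by
  have pick : ∀ (J : ℕ) (l : {l : List ℕ // Lac2 l}), ∃ n : ℕ, dP l.1 ≤ n ∧
      (∀ l' ∈ l.1.tails, ‖Φ (uP c l' * Ring.inverse (uP c l.1) *
        (Ring.inverse (1 + zc ^ n * wP c l.1) - 1))‖ ≤ (1 / 2) ^ J) ∧
      (‖Φ (Ring.inverse (uP c l.1) *
        (Ring.inverse (1 + zc ^ n * wP c l.1) - 1))‖ ≤ (1 / 2) ^ J) ∧
      (L (nsq (uP c l.1)) + (1 / 4) * L (nsq (uP c l.1) * (1 - nsq (uP c l.1)) ^ 2) -
        (1 / 2) ^ J ≤ L (nsq (uP c (n :: l.1))) ∧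
      L (nlog (uP c (n :: l.1))) ≤ L (nlog (uP c l.1)) + (1 / 2) ^ J ∧
      ∀ l' ∈ l.1.tails, |L (reC (zc ^ n * (wP c l.1 * uP c l.1 * star (uP c l'))))| ≤
        (1 / 2) ^ J) ∧ b (n :: l.1) ≤ b l.1 + (1 / 2) ^ J := by
    intro J l
    have hpos : (0 : ℝ) < (1 / 2) ^ J := by positivity
    have hsm : ∀ a : C(Circle, ℂ), ∀ᶠ n : ℕ in atTop,
        ‖Φ (a * (Ring.inverse (1 + zc ^ n * wP c l.1) - 1))‖ ≤ (1 / 2) ^ J := by
      intro a
      have h1 := (hP2 Φ hΦ a (wP c l.1) (hP1 c hc hc' l.1).2.1).2.norm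
      rw [norm_zero] at h1
      exact (h1.eventually (gt_mem_nhds hpos)).mono fun n hn => hn.le
    have e1 : ∀ᶠ n : ℕ in atTop, dP l.1 ≤ n := eventually_ge_atTop _
    have e2 : ∀ᶠ n : ℕ in atTop, ∀ l' ∈ l.1.tails, ‖Φ (uP c l' * Ring.inverse (uP c l.1) *
        (Ring.inverse (1 + zc ^ n * wP c l.1) - 1))‖ ≤ (1 / 2) ^ J := by
      have : ∀ᶠ n : ℕ in atTop, ∀ l' ∈ l.1.tails.toFinset,
          ‖Φ (uP c l' * Ring.inverse (uP c l.1) *
            (Ring.inverse (1 + zc ^ n * wP c l.1) - 1))‖ ≤ (1 / 2) ^ J := by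
        rw [Filter.eventually_all_finset]
        intro l' _
        exact hsm _
      filter_upwards [this] with n hn l' hl'
      exact hn l' (List.mem_toFinset.mpr hl')
    have e3 := hP3 L hp c hc hc' l.1 ((1 / 2) ^ J) hpos
    have e4 := hb l.1 ((1 / 2) ^ J) hpos
    obtain ⟨n, h1, h2, h3, h4, h5⟩ := (e1.and (e2.and ((hsm _).and (e3.and e4)))).exists
    exact ⟨n, h1, h2, h3, h4, h5⟩
  choose nx hnx using pick
  let seq : ℕ → {l : List ℕ // Lac2 l} := fun J =>
    Nat.rec ⟨[], trivial⟩ (fun J l => ⟨nx J l :: l.1, ⟨(hnx J l).1, l.2⟩⟩) J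
  have hsucc : ∀ J, (seq (J + 1)).1 = nx J (seq J) :: (seq J).1 := fun _ => rfl
  have hsuf : ∀ K J, K ≤ J → (seq K).1 <:+ (seq J).1 := by
    intro K J hKJ
    induction J, hKJ using Nat.le_induction with
    | base => exact List.suffix_refl _
    | succ J hJ ih =>
      rw [hsucc]
      exact ih.trans (List.suffix_cons _ _)
  refine ⟨fun J => (seq J).1, fun J => nx J (seq J), rfl, hsucc, fun J => (seq J).2, ?_, ?_, ?_,
    ?_, ?_, ?_, ?_⟩
  · intro K J hKJ
    exact (hnx J (seq J)).2.1 _ ((List.mem_tails _ _).mpr (hsuf K J hKJ))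
  · intro J
    exact (hnx J (seq J)).2.2.1
  · intro J
    exact (hP2 Φ hΦ 0 _ (hP1 c hc hc' (seq J).1).2.1).1 _
  · intro J
    exact (hnx J (seq J)).2.2.2.1.1
  · intro J
    exact (hnx J (seq J)).2.2.2.1.2.1
  · intro K J hKJ
    exact (hnx J (seq J)).2.2.2.1.2.2 _ ((List.mem_tails _ _).mpr (hsuf K J hKJ))
  · intro J
    exact (hnx J (seq J)).2.2.2.2

section

variable {F : Type*} [NormedAddCommGroup F] [NormedSpace ℂ F] {Φ : C(Circle, ℂ) →L[ℂ] F}
    {L : C(Circle, ℝ) →ₗ[ℝ] ℝ} {c : ℝ} {b : List ℕ → ℝ} {q : ℕ → List ℕ} {n : ℕ → ℕ}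

theorem sum_geo_le (N : ℕ) : ∑ i ∈ Finset.range N, ((1 : ℝ) / 2) ^ i ≤ 2 := by
  have := summable_geometric_two.sum_le_tsum (Finset.range N) (fun i _ => by positivity)
  rw [tsum_geometric_two] at this
  exact this

theorem Sel2.bd_le (h : Sel2 Φ L c b q n) (J : ℕ) : b (q J) ≤ b [] + 2 := by
  have h1 : b (q J) ≤ b [] + ∑ i ∈ Finset.range J, ((1 : ℝ) / 2) ^ i := by
    induction J with
    | zero => simp [h.zero]
    | succ J ih =>
      rw [Finset.sum_range_succ]
      have := h.bd J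
      linarith
  have := sum_geo_le J
  linarith

theorem posR_mono {f g : C(Circle, ℝ)} (hL : PosR2 L) (hfg : f ≤ g) : L f ≤ L g := by
  have := hL.1 (g - f) (sub_nonneg.mpr hfg)
  rw [map_sub] at this
  linarith

theorem Sel2.log_le (h : Sel2 Φ L c b q n) (J : ℕ) :
    L (nlog (uP c (q J))) ≤ L (nlog (uP c [])) + 2 := by
  have h1 : L (nlog (uP c (q J))) ≤ L (nlog (uP c [])) +
      ∑ i ∈ Finset.range J, ((1 : ℝ) / 2) ^ i := by
    induction J with
    | zero => simp [h.zero]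
    | succ J ih =>
      rw [Finset.sum_range_succ]
      have := h.log J
      linarith
  have := sum_geo_le J
  linarith

theorem nsq_le_one (hP1 : ModP1) (hc : 0 < c) (hc' : c < 1) (l : List ℕ) :
    nsq (uP c l) ≤ 1 := by
  rw [ContinuousMap.le_def]
  intro z
  have h1 := (((hP1 c hc hc' l).1 z).2).le
  have h2 := norm_nonneg (uP c l z)
  rw [nsq_apply, ContinuousMap.one_apply]
  nlinarith

theorem nsq_nonneg (f : C(Circle, ℂ)) : 0 ≤ nsq f := by
  rw [ContinuousMap.le_def]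
  intro z
  rw [nsq_apply, ContinuousMap.zero_apply]
  positivity

theorem Sel2.summable (hP1 : ModP1) (hc : 0 < c) (hc' : c < 1) (h : Sel2 Φ L c b q n)
    (hp : PosR2 L) :
    Summable fun J => L (nsq (uP c (q J)) * (1 - nsq (uP c (q J))) ^ 2) := by
  have hnn : ∀ J, 0 ≤ L (nsq (uP c (q J)) * (1 - nsq (uP c (q J))) ^ 2) := by
    intro J
    apply hp.1
    rw [ContinuousMap.le_def]
    intro z
    simp only [ContinuousMap.zero_apply, ContinuousMap.mul_apply, nsq_apply,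
      ContinuousMap.pow_apply, ContinuousMap.sub_apply, ContinuousMap.one_apply]
    positivity
  have hb : ∀ N : ℕ, ∑ i ∈ Finset.range N, L (nsq (uP c (q i)) * (1 - nsq (uP c (q i))) ^ 2) ≤
      4 * (L 1 + 2) := by
    intro N
    have h1 : (1 / 4) * ∑ i ∈ Finset.range N,
        L (nsq (uP c (q i)) * (1 - nsq (uP c (q i))) ^ 2) ≤
        L (nsq (uP c (q N))) - L (nsq (uP c (q 0))) +
          ∑ i ∈ Finset.range N, ((1 : ℝ) / 2) ^ i := by
      induction N with
      | zero => simp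
      | succ N ih =>
        rw [Finset.sum_range_succ, Finset.sum_range_succ, mul_add]
        have := h.grow N
        linarith
    have h2 := sum_geo_le N
    have h3 : L (nsq (uP c (q N))) ≤ L 1 := posR_mono hp (nsq_le_one hP1 hc hc' _)
    have h4 : 0 ≤ L (nsq (uP c (q 0))) := hp.1 _ (nsq_nonneg _)
    linarith
  exact summable_of_sum_range_le hnn hb

/-- `L (1 - |u_K|^2) → 0` -/
theorem Sel2.tendsto_one_sub (hP1 : ModP1) (hc : 0 < c) (hc' : c < 1) (h : Sel2 Φ L c b q n)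
    (hp : PosR2 L) : Tendsto (fun K => L (1 - nsq (uP c (q K)))) atTop (𝓝 0) := by
  have hnn : ∀ K, 0 ≤ L (1 - nsq (uP c (q K))) := fun K =>
    hp.1 _ (sub_nonneg.mpr (nsq_le_one hP1 hc hc' _))
  set A : ℝ := L (nlog (uP c [])) + 2 with hA
  have hlogA : ∀ K, L (nlog (uP c (q K))) ≤ A := h.log_le
  have hL1 : 0 ≤ L 1 := hp.1 1 (by rw [ContinuousMap.le_def]; intro z; simp)
  -- squares
  have hsq : Tendsto (fun K => L ((1 - nsq (uP c (q K))) ^ 2)) atTop (𝓝 0) := by
    have hnn2 : ∀ K, 0 ≤ L ((1 - nsq (uP c (q K))) ^ 2) := fun K => by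
      apply hp.1
      rw [ContinuousMap.le_def]
      intro z
      simp only [ContinuousMap.zero_apply, ContinuousMap.pow_apply]
      positivity
    have ha := (h.summable hP1 hc hc' hp).tendsto_atTop_zero
    have hkey : ∀ (R : ℝ), 0 < R → ∀ K, L ((1 - nsq (uP c (q K))) ^ 2) ≤
        Real.exp R * L (nsq (uP c (q K)) * (1 - nsq (uP c (q K))) ^ 2) + 2 * |A| / R := by
      intro R hR K
      have hpt : (1 - nsq (uP c (q K))) ^ 2 ≤
          Real.exp R • (nsq (uP c (q K)) * (1 - nsq (uP c (q K))) ^ 2) +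
            (2 / R) • nlog (uP c (q K)) := by
        rw [ContinuousMap.le_def]
        intro z
        have hu := (hP1 c hc hc' (q K)).1
        have hne : ∀ z, uP c (q K) z ≠ 0 := fun z => norm_pos_iff.mp (hu z).1
        simp only [ContinuousMap.add_apply, ContinuousMap.smul_apply, ContinuousMap.mul_apply,
          nsq_apply, ContinuousMap.pow_apply, ContinuousMap.sub_apply, ContinuousMap.one_apply,
          nlog_apply _ hne, smul_eq_mul]
        set r := ‖uP c (q K) z‖ with hr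
        have hr0 : 0 < r := (hu z).1
        have hr1 : r < 1 := (hu z).2
        have hlog : Real.log r < 0 := Real.log_neg hr0 hr1
        have h2 : r ^ 2 ≤ 1 := by nlinarith
        by_cases hcase : Real.exp (-R) ≤ r ^ 2
        · have h1 : 1 ≤ Real.exp R * r ^ 2 := by
            calc (1 : ℝ) = Real.exp R * Real.exp (-R) := by rw [← Real.exp_add]; simp
              _ ≤ Real.exp R * r ^ 2 := by gcongr
          have h3 : 0 ≤ 2 / R * -Real.log r := by
            apply mul_nonneg (by positivity)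
            linarith
          have h4 : (1 - r ^ 2) ^ 2 * 1 ≤ (1 - r ^ 2) ^ 2 * (Real.exp R * r ^ 2) := by gcongr
          nlinarith
        · push Not at hcase
          have h1 : R < -(2 * Real.log r) := by
            have h5 : Real.log (r ^ 2) < -R := by
              rw [Real.log_lt_iff_lt_exp (by positivity)]
              exact hcase
            rw [Real.log_pow] at h5
            push_cast at h5
            linarith
          have h3 : 1 ≤ 2 / R * -Real.log r := by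
            rw [div_mul_eq_mul_div, le_div_iff₀ hR]
            linarith
          have h4 : (1 - r ^ 2) ^ 2 ≤ 1 := by
            have : 0 ≤ r ^ 2 := by positivity
            nlinarith
          have h5 : 0 ≤ Real.exp R * (r ^ 2 * (1 - r ^ 2) ^ 2) := by positivity
          linarith
      have h1 := posR_mono hp hpt
      rw [map_add, map_smul, map_smul, smul_eq_mul, smul_eq_mul] at h1
      have h2 : 2 / R * L (nlog (uP c (q K))) ≤ 2 * |A| / R := by
        rw [div_mul_eq_mul_div]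
        gcongr
        exact (hlogA K).trans (le_abs_self A)
      linarith
    rw [Metric.tendsto_atTop]
    intro ε hε
    obtain ⟨R, hR, hRε⟩ : ∃ R : ℝ, 0 < R ∧ 2 * |A| / R < ε / 2 := by
      refine ⟨4 * |A| / ε + 1, by positivity, ?_⟩
      rw [div_lt_iff₀ (by positivity)]
      have : ε / 2 * (4 * |A| / ε + 1) = 2 * |A| + ε / 2 := by field_simp; ring
      rw [this]
      linarith
    have h3 := ha.const_mul (Real.exp R)
    rw [mul_zero] at h3
    obtain ⟨K₀, hK₀⟩ := eventually_atTop.mp (h3.eventually (gt_mem_nhds (half_pos hε)))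
    refine ⟨K₀, fun K hK => ?_⟩
    rw [dist_zero_right, Real.norm_of_nonneg (hnn2 K)]
    have h4 := hkey R hR K
    have h5 := hK₀ K hK
    linarith
  rw [Metric.tendsto_atTop]
  intro ε hε
  set η : ℝ := ε / (2 * (L 1 + 1)) with hη
  have hη0 : 0 < η := by positivity
  have hηL : η * L 1 < ε / 2 := by
    rw [hη, div_mul_eq_mul_div, div_lt_iff₀ (by positivity)]
    nlinarith
  have h3 := hsq.const_mul (1 / (4 * η))
  rw [mul_zero] at h3
  obtain ⟨K₀, hK₀⟩ := eventually_atTop.mp (h3.eventually (gt_mem_nhds (half_pos hε)))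
  refine ⟨K₀, fun K hK => ?_⟩
  rw [dist_zero_right, Real.norm_of_nonneg (hnn K)]
  have hpt : 1 - nsq (uP c (q K)) ≤ η • (1 : C(Circle, ℝ)) +
      (1 / (4 * η)) • (1 - nsq (uP c (q K))) ^ 2 := by
    rw [ContinuousMap.le_def]
    intro z
    simp only [ContinuousMap.add_apply, ContinuousMap.smul_apply, nsq_apply,
      ContinuousMap.pow_apply, ContinuousMap.sub_apply, ContinuousMap.one_apply, smul_eq_mul]
    set x := 1 - ‖uP c (q K) z‖ ^ 2
    have h6 : η * 1 + 1 / (4 * η) * x ^ 2 - x = (x - 2 * η) ^ 2 / (4 * η) := by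
      field_simp
      ring
    have h7 : 0 ≤ (x - 2 * η) ^ 2 / (4 * η) := by positivity
    linarith
  have h4 := posR_mono hp hpt
  rw [map_add, map_smul, map_smul, smul_eq_mul, smul_eq_mul] at h4
  have h5 := hK₀ K hK
  linarith

/-- almost orthogonality -/
theorem Sel2.corr_le (h : Sel2 Φ L c b q n) (K J : ℕ) (hKJ : K ≤ J) :
    L (nsq (uP c (q K))) - 2 * (1 / 2) ^ K ≤
      L (reC (uP c (q J) * star (uP c (q K)))) := by
  have h1 : ∀ J, K ≤ J → L (nsq (uP c (q K))) - ∑ i ∈ Finset.Ico K J, ((1 : ℝ) / 2) ^ i ≤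
      L (reC (uP c (q J) * star (uP c (q K)))) := by
    intro J hJ
    induction J, hJ using Nat.le_induction with
    | base =>
      simp only [Finset.Ico_self, Finset.sum_empty, sub_zero]
      apply le_of_eq
      congr 1
      ext z
      simp only [nsq_apply, reC_apply, ContinuousMap.mul_apply, ContinuousMap.star_apply]
      rw [← starRingEnd_apply, Complex.mul_conj, Complex.ofReal_re, Complex.normSq_eq_norm_sq]
    | succ J hJ ih =>
      rw [Finset.sum_Ico_succ_top hJ]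
      have h2 : reC (uP c (q (J + 1)) * star (uP c (q K))) =
          reC (uP c (q J) * star (uP c (q K))) +
            reC (zc ^ n J * (wP c (q J) * uP c (q J) * star (uP c (q K)))) := by
        rw [h.succ, uP_cons]
        ext z
        simp only [reC_apply, ContinuousMap.add_apply, ContinuousMap.mul_apply,
          ContinuousMap.one_apply, ContinuousMap.star_apply, ContinuousMap.pow_apply]
        rw [← Complex.add_re]
        congr 1
        ring
      rw [h2, map_add]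
      have h3 := (abs_le.mp (h.corr K J hJ)).1
      linarith
  have h2 : ∑ i ∈ Finset.Ico K J, ((1 : ℝ) / 2) ^ i ≤ 2 * (1 / 2) ^ K := by
    rw [Finset.sum_Ico_eq_sum_range]
    have h3 : ∑ i ∈ Finset.range (J - K), ((1 : ℝ) / 2) ^ (K + i) =
        (1 / 2) ^ K * ∑ i ∈ Finset.range (J - K), ((1 : ℝ) / 2) ^ i := by
      rw [Finset.mul_sum]
      exact Finset.sum_congr rfl fun i _ => pow_add _ _ _
    rw [h3]
    have := sum_geo_le (J - K)
    have h4 : (0 : ℝ) < (1 / 2) ^ K := by positivity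
    nlinarith
  have := h1 J hKJ
  linarith

theorem Sel2.control (hP1 : ModP1) (hc : 0 < c) (hc' : c < 1) (h : Sel2 Φ L c b q n)
    (hp : PosR2 L) {δ : ℝ} (hδ : 0 < δ) : ∃ K₀ : ℕ, ∀ K, K₀ ≤ K → ∀ J, K ≤ J →
      L (absC (uP c (q K) * star (uP c (q J)) - 1)) ≤ δ := by
  have hL1 : 0 ≤ L 1 := hp.1 1 (by rw [ContinuousMap.le_def]; intro z; simp)
  have hlim := h.tendsto_one_sub hP1 hc hc' hp
  set η : ℝ := δ / (4 * (L 1 + 1)) with hη
  have hη0 : 0 < η := by positivity
  have hηL : η * L 1 ≤ δ / 4 := by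
    rw [hη, div_mul_eq_mul_div, div_le_iff₀ (by positivity)]
    nlinarith
  have hgeo : Tendsto (fun K : ℕ => 4 * ((1 : ℝ) / 2) ^ K) atTop (𝓝 0) := by
    have := (tendsto_pow_atTop_nhds_zero_of_lt_one (r := (1 : ℝ) / 2) (by norm_num)
      (by norm_num)).const_mul 4
    rwa [mul_zero] at this
  have h3 := (hlim.add hgeo).const_mul (1 / (4 * η))
  rw [add_zero, mul_zero] at h3
  obtain ⟨K₀, hK₀⟩ := eventually_atTop.mp
    ((h3.eventually (gt_mem_nhds (show (0 : ℝ) < δ / 4 by positivity))).and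
      (hlim.eventually (gt_mem_nhds (show (0 : ℝ) < δ / 4 by positivity))))
  refine ⟨K₀, fun K hK J hJ => ?_⟩
  have hpt : absC (uP c (q K) * star (uP c (q J)) - 1) ≤ η • (1 : C(Circle, ℝ)) +
      (1 / (4 * η)) • (nsq (uP c (q K)) + nsq (uP c (q J)) -
        (2 : ℝ) • reC (uP c (q J) * star (uP c (q K)))) + (1 - nsq (uP c (q J))) := by
    rw [ContinuousMap.le_def]
    intro z
    simp only [ContinuousMap.add_apply, ContinuousMap.smul_apply, nsq_apply, reC_apply,
      ContinuousMap.sub_apply, ContinuousMap.one_apply, smul_eq_mul, absC_apply,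
      ContinuousMap.mul_apply, ContinuousMap.star_apply]
    set a := uP c (q K) z with ha
    set d := uP c (q J) z with hd
    have ha1 : ‖a‖ < 1 := ((hP1 c hc hc' (q K)).1 z).2
    have hd1 : ‖d‖ < 1 := ((hP1 c hc hc' (q J)).1 z).2
    have e1 : a * star d - 1 = (a - d) * star d + ((‖d‖ ^ 2 - 1 : ℝ) : ℂ) := by
      have h2 : ((‖d‖ : ℂ)) ^ 2 = d * star d := by
        rw [← Complex.mul_conj' d]
        rfl
      push_cast
      rw [h2]
      ring
    have e2 : ‖a - d‖ ^ 2 = ‖a‖ ^ 2 + ‖d‖ ^ 2 - 2 * (d * star a).re := by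
      rw [← Complex.normSq_eq_norm_sq, ← Complex.normSq_eq_norm_sq, ← Complex.normSq_eq_norm_sq,
        Complex.normSq_sub]
      congr 2
      rw [← starRingEnd_apply, Complex.mul_re, Complex.mul_re]
      simp
      ring
    rw [e1, ← e2]
    have h4 : ‖(a - d) * star d + ((‖d‖ ^ 2 - 1 : ℝ) : ℂ)‖ ≤ ‖a - d‖ + (1 - ‖d‖ ^ 2) := by
      refine (norm_add_le _ _).trans ?_
      rw [norm_mul, norm_star, Complex.norm_real, Real.norm_eq_abs]
      have h5 : |‖d‖ ^ 2 - 1| = 1 - ‖d‖ ^ 2 := by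
        rw [abs_sub_comm, abs_of_nonneg]
        have := norm_nonneg d
        nlinarith
      rw [h5]
      have h6 : ‖a - d‖ * ‖d‖ ≤ ‖a - d‖ * 1 := by gcongr
      linarith
    have h7 : η * 1 + 1 / (4 * η) * ‖a - d‖ ^ 2 - ‖a - d‖ = (‖a - d‖ - 2 * η) ^ 2 / (4 * η) := by
      field_simp
      ring
    have h8 : 0 ≤ (‖a - d‖ - 2 * η) ^ 2 / (4 * η) := by positivity
    linarith
  have h4 := posR_mono hp hpt
  rw [map_add, map_add, map_smul, map_smul, map_sub, map_add, map_smul, smul_eq_mul, smul_eq_mul,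
    smul_eq_mul] at h4
  have h5 := h.corr_le K J hJ
  have h6 : L (nsq (uP c (q J))) ≤ L 1 := posR_mono hp (nsq_le_one hP1 hc hc' _)
  have h7 := (hK₀ K hK).1
  have h8 := (hK₀ J (hK.trans hJ)).2
  have h9 : L (nsq (uP c (q K))) + L (nsq (uP c (q J))) -
      2 * L (reC (uP c (q J) * star (uP c (q K)))) ≤
      L (1 - nsq (uP c (q K))) + 4 * (1 / 2) ^ K := by
    rw [map_sub]
    linarith
  have h10 : 1 / (4 * η) * (L (nsq (uP c (q K))) + L (nsq (uP c (q J))) -
      2 * L (reC (uP c (q J) * star (uP c (q K))))) ≤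
      1 / (4 * η) * (L (1 - nsq (uP c (q K))) + 4 * (1 / 2) ^ K) := by
    gcongr
  linarith

end

end Core2

end Pool.Agent.C10
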